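import Mathlib

/-!
General facts about Mathlib's Gromov-Hausdorff distance: the bound by half the distortion of a
correspondence, and the almost isometric map coming from a small Gromov-Hausdorff distance.
-/

namespace Pool.Agent.H88.GH

open Metric Set GromovHausdorff

universe u v

variable {X : Type u} [MetricSpace X] [CompactSpace X] [Nonempty X]
variable {Y : Type v} [MetricSpace Y] [CompactSpace Y] [Nonempty Y]

/-- Half the distortion of a correspondence bounds the Gromov-Hausdorff distance. -/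
theorem ghDist_le_of_rel (R : X → Y → Prop) (hX : ∀ x, ∃ y, R x y) (hY : ∀ y, ∃ x, R x y)
    {r : ℝ} (hr : 0 < r)
    (h : ∀ x y x' y', R x y → R x' y' → |dist x x' - dist y y'| ≤ 2 * r) :
    ghDist X Y ≤ r := by
  classical
  let Z := {p : X × Y // R p.1 p.2}
  have hZ : Nonempty Z := by
    obtain ⟨x⟩ := ‹Nonempty X›
    obtain ⟨y, hy⟩ := hX x
    exact ⟨⟨(x, y), hy⟩⟩
  have H : ∀ p q : Z, |dist p.1.1 q.1.1 - dist p.1.2 q.1.2| ≤ 2 * r :=
    fun p q => h _ _ _ _ p.2 q.2
  let _ : MetricSpace (X ⊕ Y) :=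
    glueMetricApprox (fun p : Z => p.1.1) (fun p : Z => p.1.2) r hr H
  let Fl := @Sum.inl X Y
  let Fr := @Sum.inr X Y
  have Il : Isometry Fl := Isometry.of_dist_eq fun x y => rfl
  have Ir : Isometry Fr := Isometry.of_dist_eq fun x y => rfl
  have h1 : ghDist X Y ≤ hausdorffDist (range Fl) (range Fr) := ghDist_le_hausdorffDist Il Ir
  refine h1.trans ?_
  refine hausdorffDist_le_of_mem_dist hr.le ?_ ?_
  · rintro _ ⟨x, rfl⟩
    obtain ⟨y, hy⟩ := hX x
    refine ⟨Fr y, mem_range_self _, ?_⟩
    exact le_of_eq (glueDist_glued_points (fun p : Z => p.1.1) (fun p : Z => p.1.2) r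
      ⟨(x, y), hy⟩)
  · rintro _ ⟨y, rfl⟩
    obtain ⟨x, hx⟩ := hY y
    refine ⟨Fl x, mem_range_self _, ?_⟩
    rw [dist_comm]
    exact le_of_eq (glueDist_glued_points (fun p : Z => p.1.1) (fun p : Z => p.1.2) r
      ⟨(x, y), hx⟩)

/-- A map with small distortion from a small Gromov-Hausdorff distance. -/
theorem exists_map_of_ghDist_lt {r : ℝ} (h : ghDist X Y < r) :
    ∃ f : X → Y, ∀ x x', |dist x x' - dist (f x) (f x')| ≤ 2 * r := by
  have h0 : hausdorffDist (range (optimalGHInjl X Y)) (range (optimalGHInjr X Y)) < r := by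
    rw [hausdorffDist_optimal]; exact h
  have Il := isometry_optimalGHInjl X Y
  have Ir := isometry_optimalGHInjr X Y
  have fin : hausdorffEDist (range (optimalGHInjl X Y)) (range (optimalGHInjr X Y)) ≠ ⊤ :=
    hausdorffEDist_ne_top_of_nonempty_of_bounded (range_nonempty _) (range_nonempty _)
      (isCompact_range Il.continuous).isBounded (isCompact_range Ir.continuous).isBounded
  have h2 : ∀ x : X, ∃ y : Y, dist (optimalGHInjl X Y x) (optimalGHInjr X Y y) < r := by
    intro x
    obtain ⟨_, ⟨y, rfl⟩, hy⟩ :=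
      exists_dist_lt_of_hausdorffDist_lt (mem_range_self x) h0 fin
    exact ⟨y, hy⟩
  choose f hf using h2
  refine ⟨f, fun x x' => ?_⟩
  rw [← Il.dist_eq x x', ← Ir.dist_eq (f x) (f x')]
  have a := hf x
  have b := hf x'
  rw [abs_le]
  constructor
  · have := dist_triangle4 (optimalGHInjr X Y (f x)) (optimalGHInjl X Y x)
      (optimalGHInjl X Y x') (optimalGHInjr X Y (f x'))
    rw [dist_comm (optimalGHInjr X Y (f x)) (optimalGHInjl X Y x)] at this
    linarith
  · have := dist_triangle4 (optimalGHInjl X Y x) (optimalGHInjr X Y (f x))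
      (optimalGHInjr X Y (f x')) (optimalGHInjl X Y x')
    rw [dist_comm (optimalGHInjr X Y (f x')) (optimalGHInjl X Y x')] at this
    linarith

end Pool.Agent.H88.GH
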