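import Mathlib
import Pool.Agent.H88.GH.Data

/-!
Numerical facts about the root `s` of `4 s ^ 3 + 4 s ^ 2 + s = 1` and the sines of the multiples of
`x = arcsin s / 128`.
-/

namespace Pool.Agent.H88.GH

open Real

lemma s_lower {s : ℝ} (hs : 0 < s) (h : 4 * s ^ 3 + 4 * s ^ 2 + s = 1) :
    0.3478103847799310287081 < s := by
  by_contra hc
  push Not at hc
  have h1 : s ^ 2 ≤ 0.3478103847799310287081 ^ 2 := pow_le_pow_left₀ hs.le hc 2
  have h2 : s ^ 3 ≤ 0.3478103847799310287081 ^ 3 := pow_le_pow_left₀ hs.le hc 3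
  norm_num at h1 h2 hc
  linarith

lemma s_upper {s : ℝ} (h : 4 * s ^ 3 + 4 * s ^ 2 + s = 1) :
    s < 0.3478103847799310287082 := by
  by_contra hc
  push Not at hc
  have h1 : 0.3478103847799310287082 ^ 2 ≤ s ^ 2 := pow_le_pow_left₀ (by norm_num) hc 2
  have h2 : 0.3478103847799310287082 ^ 3 ≤ s ^ 3 := pow_le_pow_left₀ (by norm_num) hc 3
  norm_num at h1 h2 hc
  linarith

lemma half_bounds {y lo hi lo' hi' : ℝ} (hy0 : 0 ≤ y) (hy : y ≤ π / 2) (h1 : lo ≤ cos y)
    (h2 : cos y ≤ hi) (hlo' : 0 ≤ lo') (hhi' : 0 ≤ hi') (h3 : lo' ^ 2 ≤ (1 + lo) / 2)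
    (h4 : (1 + hi) / 2 ≤ hi' ^ 2) : lo' ≤ cos (y / 2) ∧ cos (y / 2) ≤ hi' := by
  have hc : cos y = 2 * cos (y / 2) ^ 2 - 1 := by
    have := Real.cos_two_mul (y / 2)
    rw [show 2 * (y / 2) = y by ring] at this
    exact this
  have hpos : 0 ≤ cos (y / 2) :=
    cos_nonneg_of_mem_Icc ⟨by linarith [pi_pos], by linarith [pi_pos]⟩
  constructor
  · apply (pow_le_pow_iff_left₀ hlo' hpos two_ne_zero).1
    linarith
  · apply (pow_le_pow_iff_left₀ hpos hhi' two_ne_zero).1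
    linarith

/-- The basic angle. -/
noncomputable def xx (s : ℝ) : ℝ := arcsin s / 128

lemma cos_chain {s : ℝ} (hs : 0 < s) (h : 4 * s ^ 3 + 4 * s ^ 2 + s = 1) :
    0.9999961489384942298339 ≤ cos (xx s) ∧ cos (xx s) ≤ 0.9999961489384942298340 := by
  have l0 := s_lower hs h
  have u0 := s_upper h
  have a0 : 0 ≤ arcsin s := arcsin_nonneg.2 hs.le
  have a1 : arcsin s ≤ π / 2 := arcsin_le_pi_div_two s
  have hc0 : cos (arcsin s) = √(1 - s ^ 2) := cos_arcsin s
  have hsq1 : 0.3478103847799310287081 ^ 2 ≤ s ^ 2 :=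
    pow_le_pow_left₀ (by norm_num) l0.le 2
  have hsq2 : s ^ 2 ≤ 0.3478103847799310287082 ^ 2 := pow_le_pow_left₀ hs.le u0.le 2
  have b0 : 0.9375648970813894129869 ≤ cos (arcsin s) ∧ cos (arcsin s) ≤ 0.9375648970813894129871 := by
    rw [hc0]
    constructor
    · apply Real.le_sqrt_of_sq_le
      norm_num at hsq1 hsq2 ⊢
      linarith
    · rw [Real.sqrt_le_left (by norm_num)]
      norm_num at hsq1 hsq2 ⊢
      linarith
  have b1 : 0.9842674679886025301881 ≤ cos (arcsin s / 2) ∧ cos (arcsin s / 2) ≤ 0.9842674679886025301882 :=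
    half_bounds (by positivity) (by linarith) b0.1 b0.2 (by norm_num) (by norm_num)
      (by norm_num) (by norm_num)
  have b2 : 0.9960591016572767932884 ≤ cos (arcsin s / 2 / 2) ∧ cos (arcsin s / 2 / 2) ≤ 0.9960591016572767932885 :=
    half_bounds (by positivity) (by linarith) b1.1 b1.2 (by norm_num) (by norm_num)
      (by norm_num) (by norm_num)
  have b3 : 0.9990142896018246628312 ≤ cos (arcsin s / 2 / 2 / 2) ∧ cos (arcsin s / 2 / 2 / 2) ≤ 0.9990142896018246628313 :=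
    half_bounds (by positivity) (by linarith) b2.1 b2.2 (by norm_num) (by norm_num)
      (by norm_num) (by norm_num)
  have b4 : 0.9997535420296906011935 ≤ cos (arcsin s / 2 / 2 / 2 / 2) ∧ cos (arcsin s / 2 / 2 / 2 / 2) ≤ 0.9997535420296906011936 :=
    half_bounds (by positivity) (by linarith) b3.1 b3.2 (by norm_num) (by norm_num)
      (by norm_num) (by norm_num)
  have b5 : 0.9999383836091328385509 ≤ cos (arcsin s / 2 / 2 / 2 / 2 / 2) ∧ cos (arcsin s / 2 / 2 / 2 / 2 / 2) ≤ 0.9999383836091328385510 :=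
    half_bounds (by positivity) (by linarith) b4.1 b4.2 (by norm_num) (by norm_num)
      (by norm_num) (by norm_num)
  have b6 : 0.9999845957836382687782 ≤ cos (arcsin s / 2 / 2 / 2 / 2 / 2 / 2) ∧ cos (arcsin s / 2 / 2 / 2 / 2 / 2 / 2) ≤ 0.9999845957836382687783 :=
    half_bounds (by positivity) (by linarith) b5.1 b5.2 (by norm_num) (by norm_num)
      (by norm_num) (by norm_num)
  have b7 : 0.9999961489384942298339 ≤ cos (arcsin s / 2 / 2 / 2 / 2 / 2 / 2 / 2) ∧ cos (arcsin s / 2 / 2 / 2 / 2 / 2 / 2 / 2) ≤ 0.9999961489384942298340 :=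
    half_bounds (by positivity) (by linarith) b6.1 b6.2 (by norm_num) (by norm_num)
      (by norm_num) (by norm_num)
  have e : xx s = arcsin s / 2 / 2 / 2 / 2 / 2 / 2 / 2 := by unfold xx; ring
  rw [e]
  exact b7

lemma xx_nonneg {s : ℝ} (hs : 0 < s) : 0 ≤ xx s := by
  unfold xx
  have : 0 ≤ arcsin s := arcsin_nonneg.2 hs.le
  positivity

lemma xx_le {s : ℝ} : xx s ≤ 1 / 64 := by
  unfold xx
  have : arcsin s ≤ π / 2 := arcsin_le_pi_div_two s
  have := pi_le_four
  linarith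

lemma sin_bounds {s : ℝ} (hs : 0 < s) (h : 4 * s ^ 3 + 4 * s ^ 2 + s = 1) :
    0.0027752672269288971616 ≤ sin (xx s) ∧ sin (xx s) ≤ 0.0027752672269288971978 := by
  obtain ⟨h1, h2⟩ := cos_chain hs h
  have hsc := sin_sq_add_cos_sq (xx s)
  have h0 := xx_nonneg hs
  have hle : xx s ≤ 1 / 64 := xx_le
  have hsin : 0 ≤ sin (xx s) :=
    sin_nonneg_of_nonneg_of_le_pi h0 (by linarith [pi_gt_three])
  have h1' : 0.9999961489384942298339 ^ 2 ≤ cos (xx s) ^ 2 := pow_le_pow_left₀ (by norm_num) h1 2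
  have h2' : cos (xx s) ^ 2 ≤ 0.9999961489384942298340 ^ 2 := pow_le_pow_left₀ (by linarith) h2 2
  constructor
  · apply (pow_le_pow_iff_left₀ (by norm_num) hsin two_ne_zero).1
    norm_num at h1' h2' ⊢
    linarith
  · apply (pow_le_pow_iff_left₀ hsin (by norm_num) two_ne_zero).1
    norm_num at h1' h2' ⊢
    linarith

end Pool.Agent.H88.GH
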