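import Mathlib
import Pool.Agent.H88.GH.Num

/-!
The table of the numbers `2 * 10 ^ 6 * sin (n * x)`.
-/

namespace Pool.Agent.H88.GH

open Real

/-- Entry `n` of the packed table. -/
def tb (n : Nat) : Nat := (big >>> (21 * n)) % 2097152

/-- `10 ^ 18 * cos x`, rounded. -/
def CC : Int := 999996148938494230
/-- `10 ^ 18 * sin x`, rounded. -/
def SS : Int := 2775267226928897

/-- One test of the table against the recursion. -/
def test (n : Nat) (s e : Int) : Bool :=
  decide (((tb n - 1 : Nat) : Int) * 1000000000000 ≤ 2 * (s - e)) &&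
  decide (2 * (s + e) ≤ ((tb n : Nat) + 2) * 1000000000000) && decide (e ≤ 100000000000000000)

/-- The recursion for cosine and sine of the multiples of `x`, with error bounds. -/
def run : Nat → Nat → Int → Int → Int → Bool
  | 0, n, _, s, e => test n s e
  | f + 1, n, c, s, e => test n s e &&
      run f (n + 1) ((c * CC - s * SS) / 1000000000000000000)
        ((s * CC + c * SS) / 1000000000000000000) (e + e / 300 + 6)

lemma run_ok : run 1131 0 1000000000000000000 0 0 = true := by
  decide +kernel

lemma test_sound {n : Nat} {s e : Int} (h : test n s e = true) {t : ℝ}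
    (ht : |1000000000000000000 * t - s| ≤ e) :
    ((tb n - 1 : Nat) : ℝ) ≤ 2000000 * t ∧ 2000000 * t ≤ (tb n : ℝ) + 2 := by
  unfold test at h
  rw [Bool.and_eq_true, Bool.and_eq_true, decide_eq_true_eq, decide_eq_true_eq,
    decide_eq_true_eq] at h
  obtain ⟨⟨h1, h2⟩, -⟩ := h
  have h1' : (((tb n - 1 : Nat) : ℝ)) * 1000000000000 ≤ 2 * ((s:ℝ) - e) := by exact_mod_cast h1
  have h2' : 2 * ((s:ℝ) + e) ≤ ((tb n : ℝ) + 2) * 1000000000000 := by exact_mod_cast h2
  rw [abs_le] at ht
  constructor <;> linarith [ht.1, ht.2]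

lemma floor_err (a : Int) (u : ℝ) (k : ℝ)
    (h : |u - (a:ℝ) / 1000000000000000000| ≤ k) :
    |u - ((a / 1000000000000000000 : Int) : ℝ)| ≤ k + 1 := by
  have h1 := Int.emod_add_mul_ediv a 1000000000000000000
  have h2 := Int.emod_nonneg a (show (1000000000000000000 : Int) ≠ 0 by norm_num)
  have h3 := Int.emod_lt_of_pos a (show (0 : Int) < 1000000000000000000 by norm_num)
  have h1' : ((a % 1000000000000000000 : Int) : ℝ) +
      1000000000000000000 * ((a / 1000000000000000000 : Int) : ℝ) = a := by exact_mod_cast h1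
  have h2' : (0:ℝ) ≤ ((a % 1000000000000000000 : Int) : ℝ) := by exact_mod_cast h2
  have h3' : ((a % 1000000000000000000 : Int) : ℝ) < 1000000000000000000 := by exact_mod_cast h3
  have h4 : (a:ℝ) / 1000000000000000000 = ((a / 1000000000000000000 : Int) : ℝ) +
      ((a % 1000000000000000000 : Int) : ℝ) / 1000000000000000000 := by
    rw [← h1']; field_simp; ring
  have h5 : (0:ℝ) ≤ ((a % 1000000000000000000 : Int) : ℝ) / 1000000000000000000 := by positivity
  have h6 : ((a % 1000000000000000000 : Int) : ℝ) / 1000000000000000000 < 1 := by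
    rw [div_lt_one (by norm_num)]; exact h3'
  rw [h4] at h
  rw [abs_le] at h ⊢
  constructor <;> linarith [h.1, h.2]

lemma step_err {s : ℝ} (hs : 0 < s) (h : 4 * s ^ 3 + 4 * s ^ 2 + s = 1) {y : ℝ} {c t e : Int}
    (hc : |1000000000000000000 * cos y - c| ≤ e) (ht : |1000000000000000000 * sin y - t| ≤ e)
    (he : e ≤ 100000000000000000) :
    |1000000000000000000 * cos (y + xx s) -
      (((c * CC - t * SS) / 1000000000000000000 : Int) : ℝ)| ≤ ((e + e / 300 + 6 : Int) : ℝ) ∧
    |1000000000000000000 * sin (y + xx s) -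
      (((t * CC + c * SS) / 1000000000000000000 : Int) : ℝ)| ≤ ((e + e / 300 + 6 : Int) : ℝ) := by
  obtain ⟨c1, c2⟩ := cos_chain hs h
  obtain ⟨s1, s2⟩ := sin_bounds hs h
  have he0 : (0:ℝ) ≤ e := (abs_nonneg _).trans hc
  have heR : (e:ℝ) ≤ 100000000000000000 := by exact_mod_cast he
  have hdiv : (e:ℝ) / 300 - 1 ≤ ((e / 300 : Int) : ℝ) := by
    have h1 := Int.emod_add_mul_ediv e 300
    have h3 := Int.emod_lt_of_pos e (show (0 : Int) < 300 by norm_num)
    have h1' : ((e % 300 : Int) : ℝ) + 300 * ((e / 300 : Int) : ℝ) = e := by exact_mod_cast h1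
    have h3' : ((e % 300 : Int) : ℝ) < 300 := by exact_mod_cast h3
    linarith
  have hcos := abs_cos_le_one y
  have hsin := abs_sin_le_one y
  have hcb : |(c:ℝ)| ≤ 1000000000000000000 + e := by
    rw [abs_le] at *
    constructor <;> linarith [hc.1, hc.2, hcos.1, hcos.2]
  have htb : |(t:ℝ)| ≤ 1000000000000000000 + e := by
    rw [abs_le] at *
    constructor <;> linarith [ht.1, ht.2, hsin.1, hsin.2]
  have hu : |cos (xx s) - (CC : ℝ) / 1000000000000000000| ≤ 1 / 1000000000000000000 := by
    unfold CC; rw [abs_le]; push_cast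
    constructor <;> norm_num at c1 c2 ⊢ <;> linarith
  have hv : |sin (xx s) - (SS : ℝ) / 1000000000000000000| ≤ 1 / 1000000000000000000 := by
    unfold SS; rw [abs_le]; push_cast
    constructor <;> norm_num at s1 s2 ⊢ <;> linarith
  have hv1 : |sin (xx s)| ≤ 1 / 350 := by
    rw [abs_le]; constructor <;> norm_num at s1 s2 ⊢ <;> linarith
  have hu1 : |cos (xx s)| ≤ 1 := abs_cos_le_one _
  have m1 : ∀ a b A B : ℝ, |a| ≤ A → |b| ≤ B → |a * b| ≤ A * B := by
    intro a b A B ha hb
    rw [abs_mul]
    exact mul_le_mul ha hb (abs_nonneg _) ((abs_nonneg _).trans ha)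
  have big1 : (1000000000000000000 + (e:ℝ)) * (1 / 1000000000000000000) ≤ 11 / 10 := by
    linarith
  constructor
  · have key : |1000000000000000000 * cos (y + xx s) -
        ((c * CC - t * SS : Int) : ℝ) / 1000000000000000000| ≤ (e + e * (1 / 350)) + 22 / 10 := by
      have e1 : 1000000000000000000 * cos (y + xx s) -
          ((c * CC - t * SS : Int) : ℝ) / 1000000000000000000 =
          (1000000000000000000 * cos y - c) * cos (xx s) +
            c * (cos (xx s) - (CC : ℝ) / 1000000000000000000) -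
            (1000000000000000000 * sin y - t) * sin (xx s) -
            t * (sin (xx s) - (SS : ℝ) / 1000000000000000000) := by
        rw [cos_add]; push_cast; ring
      rw [e1]
      have a1 := m1 _ _ _ _ hc hu1
      have a2 := m1 _ _ _ _ hcb hu
      have a3 := m1 _ _ _ _ ht hv1
      have a4 := m1 _ _ _ _ htb hv
      rw [abs_le] at a1 a2 a3 a4 ⊢
      constructor <;> linarith [a1.1, a1.2, a2.1, a2.2, a3.1, a3.2, a4.1, a4.2]
    refine (floor_err _ _ _ key).trans ?_
    push_cast
    linarith
  · have key : |1000000000000000000 * sin (y + xx s) -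
        ((t * CC + c * SS : Int) : ℝ) / 1000000000000000000| ≤ (e + e * (1 / 350)) + 22 / 10 := by
      have e1 : 1000000000000000000 * sin (y + xx s) -
          ((t * CC + c * SS : Int) : ℝ) / 1000000000000000000 =
          (1000000000000000000 * sin y - t) * cos (xx s) +
            t * (cos (xx s) - (CC : ℝ) / 1000000000000000000) +
            (1000000000000000000 * cos y - c) * sin (xx s) +
            c * (sin (xx s) - (SS : ℝ) / 1000000000000000000) := by
        rw [sin_add]; push_cast; ring
      rw [e1]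
      have a1 := m1 _ _ _ _ ht hu1
      have a2 := m1 _ _ _ _ htb hu
      have a3 := m1 _ _ _ _ hc hv1
      have a4 := m1 _ _ _ _ hcb hv
      rw [abs_le] at a1 a2 a3 a4 ⊢
      constructor <;> linarith [a1.1, a1.2, a2.1, a2.2, a3.1, a3.2, a4.1, a4.2]
    refine (floor_err _ _ _ key).trans ?_
    push_cast
    linarith

lemma run_sound {s : ℝ} (hs : 0 < s) (h : 4 * s ^ 3 + 4 * s ^ 2 + s = 1) (f : Nat) :
    ∀ (n : Nat) (c t e : Int), run f n c t e = true →
    |1000000000000000000 * cos (n * xx s) - c| ≤ e →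
    |1000000000000000000 * sin (n * xx s) - t| ≤ e → ∀ m, m ≤ f →
    ((tb (n + m) - 1 : Nat) : ℝ) ≤ 2000000 * sin ((n + m : ℕ) * xx s) ∧
    2000000 * sin ((n + m : ℕ) * xx s) ≤ (tb (n + m) : ℝ) + 2 := by
  induction f with
  | zero =>
    intro n c t e hr hc ht m hm
    obtain rfl : m = 0 := by omega
    exact test_sound hr ht
  | succ f ih =>
    intro n c t e hr hc ht m hm
    unfold run at hr
    rw [Bool.and_eq_true] at hr
    rcases Nat.eq_zero_or_pos m with rfl | hm0
    · exact test_sound hr.1 ht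
    · obtain ⟨m', rfl⟩ : ∃ m', m = m' + 1 := ⟨m - 1, by omega⟩
      have he : e ≤ 100000000000000000 := by
        have := hr.1
        unfold test at this
        rw [Bool.and_eq_true, Bool.and_eq_true, decide_eq_true_eq, decide_eq_true_eq,
          decide_eq_true_eq] at this
        exact this.2
      have hstep := step_err hs h hc ht he
      have e1 : (n : ℝ) * xx s + xx s = ((n + 1 : ℕ) : ℝ) * xx s := by push_cast; ring
      rw [e1] at hstep
      have := ih (n + 1) _ _ _ hr.2 hstep.1 hstep.2 m' (by omega)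
      rw [show n + (m' + 1) = n + 1 + m' by ring]
      exact this

theorem table {s : ℝ} (hs : 0 < s) (h : 4 * s ^ 3 + 4 * s ^ 2 + s = 1) (n : ℕ) (hn : n ≤ 1131) :
    ((tb n - 1 : Nat) : ℝ) ≤ 2000000 * sin (n * xx s) ∧
    2000000 * sin (n * xx s) ≤ (tb n : ℝ) + 2 := by
  have := run_sound hs h 1131 0 1000000000000000000 0 0 run_ok (by simp) (by simp) n hn
  rwa [zero_add] at this

end Pool.Agent.H88.GH
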