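import Mathlib
import Pool.Agent.H88.GH.Tab

/-!
The finite check of the correspondence.
-/

namespace Pool.Agent.H88.GH

/-- Upper bound for `2 * 10 ^ 6 * |sin|` between the angles of index `a` and `b`. -/
def Ub (a b : Nat) : Nat :=
  bif Nat.ble b 565 then tb b + 2 else
    bif Nat.ble 567 a && Nat.ble b 1131 then tb a + 2 else 2000000

/-- Lower bound for `2 * 10 ^ 6 * |sin|` between the angles of index `a` and `b`. -/
def Lb (a b : Nat) : Nat := bif Nat.ble b 1131 then min (tb a - 1) (tb b - 1) else 0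

/-- Points at squared distance at least `D` may have angles differing by `a` to `b`. -/
def okhi (a b D : Nat) : Bool :=
  Nat.ble b 256 || Nat.ble ((Ub a b - 1304379) * (Ub a b - 1304379)) (D * 1000000)

/-- Points at squared distance at most `E` may have angles differing by `a` to `b`. -/
def oklo (a b E : Nat) : Bool :=
  (Nat.ble 128 a && Nat.ble b 1003) ||
    Nat.ble (E * 1000000) ((1304379 + Lb a b) * (1304379 + Lb a b))

/-- Gap between two intervals. -/
def gap (a0 a1 b0 b1 : Nat) : Nat := (b0 - a1) + (a0 - b1)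

/-- Largest distance between points of two intervals. -/
def far (a0 a1 b0 b1 : Nat) : Nat := max (a1 - b0) (b1 - a0)

/-- The check of a pair of items: both in the upper half, and one reflected. -/
def okp (p q : It) : Bool :=
  okhi (gap p.a p.b q.a q.b) (far p.a p.b q.a q.b)
    (gap p.X0 p.X1 q.X0 q.X1 * gap p.X0 p.X1 q.X0 q.X1 +
      gap p.Y0 p.Y1 q.Y0 q.Y1 * gap p.Y0 p.Y1 q.Y0 q.Y1) &&
  oklo (gap p.a p.b q.a q.b) (far p.a p.b q.a q.b)
    (far p.X0 p.X1 q.X0 q.X1 * far p.X0 p.X1 q.X0 q.X1 +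
      far p.Y0 p.Y1 q.Y0 q.Y1 * far p.Y0 p.Y1 q.Y0 q.Y1) &&
  okhi (p.a + q.a) (p.b + q.b)
    (gap p.X0 p.X1 q.X0 q.X1 * gap p.X0 p.X1 q.X0 q.X1 + (p.Y0 + q.Y0) * (p.Y0 + q.Y0)) &&
  oklo (p.a + q.a) (p.b + q.b)
    (far p.X0 p.X1 q.X0 q.X1 * far p.X0 p.X1 q.X0 q.X1 + (p.Y1 + q.Y1) * (p.Y1 + q.Y1))

/-- All pairs. -/
def allp : List It → Bool
  | [] => true
  | p :: l => okp p p && l.all (okp p) && allp l

/-- The items of a tree. -/
def items : Tr → Nat → Nat → Nat → Nat → List It → List It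
  | Tr.o, _, _, _, _, acc => acc
  | Tr.l w, X0, X1, Y0, Y1, acc => ⟨X0, X1, Y0, Y1, w, w⟩ :: acc
  | Tr.x c a b, X0, X1, Y0, Y1, acc => items a X0 c Y0 Y1 (items b c X1 Y0 Y1 acc)
  | Tr.y c a b, X0, X1, Y0, Y1, acc => items a X0 X1 Y0 c (items b X0 X1 c Y1 acc)

/-- The boxes marked as outside are outside of the disc. -/
def chk : Tr → Nat → Nat → Nat → Nat → Bool
  | Tr.o, X0, X1, Y0, _ =>
    Nat.ble 1000001 (((X0 - 1000) + (1000 - X1)) * ((X0 - 1000) + (1000 - X1)) + Y0 * Y0)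
  | Tr.l _, _, _, _, _ => true
  | Tr.x c a b, X0, X1, Y0, Y1 => chk a X0 c Y0 Y1 && chk b c X1 Y0 Y1
  | Tr.y c a b, X0, X1, Y0, Y1 => chk a X0 X1 Y0 c && chk b X0 X1 c Y1

/-- The list of all items. -/
def lst : List It := items tree 0 2000 0 1000 extras

lemma chk_ok : chk tree 0 2000 0 1000 = true := by decide +kernel

lemma allp_ok : allp lst = true := by decide +kernel

end Pool.Agent.H88.GH
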