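import Mathlib

/-!
The lower bound: there is no map from the unit disc to the unit circle which moves nearby points
by at most `r` and sends antipodal points of the boundary to points at distance at least `2 - r`,
if `r < 2 (1 - s)`, where `4 s ^ 3 + 4 s ^ 2 + s = 1`.
-/

namespace Pool.Agent.H88.GH

open Real

/-- The point of the unit circle with angle `a`. -/
noncomputable def ec (a : ℝ) : ℂ := Complex.exp (a * Complex.I)

lemma ec_add (a b : ℝ) : ec (a + b) = ec a * ec b := by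
  unfold ec; rw [← Complex.exp_add]; push_cast; ring_nf

lemma ec_re (a : ℝ) : (ec a).re = cos a := by
  unfold ec; exact Complex.exp_ofReal_mul_I_re a

lemma ec_im (a : ℝ) : (ec a).im = sin a := by
  unfold ec; exact Complex.exp_ofReal_mul_I_im a

lemma norm_ec (a : ℝ) : ‖ec a‖ = 1 := by
  unfold ec; exact Complex.norm_exp_ofReal_mul_I a

lemma norm_ec_sub (a b : ℝ) : ‖ec a - ec b‖ = 2 * |sin ((a - b) / 2)| := by
  have h0 : (0:ℝ) ≤ 2 * |sin ((a - b) / 2)| := by positivity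
  rw [← Real.sqrt_sq (norm_nonneg _), ← Real.sqrt_sq h0]
  congr 1
  rw [← Complex.normSq_eq_norm_sq, Complex.normSq_apply]
  simp only [Complex.sub_re, Complex.sub_im, ec_re, ec_im]
  rw [mul_pow, sq_abs]
  have h1 : cos (a - b) = 1 - 2 * sin ((a - b) / 2) ^ 2 := by
    have h := Real.cos_two_mul ((a - b) / 2)
    have h' := Real.sin_sq_add_cos_sq ((a - b) / 2)
    rw [show 2 * ((a - b) / 2) = a - b by ring] at h
    linarith
  have h2 := Real.cos_sub a b
  have h3 := Real.sin_sq_add_cos_sq a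
  have h4 := Real.sin_sq_add_cos_sq b
  nlinarith [h1, h2, h3, h4]

/-- The signed angle from `u` to `v`. -/
noncomputable def ang (u v : ℂ) : ℝ := Complex.arg (v / u)

lemma ec_ang {u v : ℂ} (hu : ‖u‖ = 1) (hv : ‖v‖ = 1) : ec (ang u v) * u = v := by
  have hu0 : u ≠ 0 := by intro h; rw [h, norm_zero] at hu; exact zero_ne_one hu
  have h : ‖v / u‖ = 1 := by rw [norm_div, hu, hv, div_one]
  have h1 := Complex.norm_mul_exp_arg_mul_I (v / u)
  rw [h] at h1
  unfold ec ang
  simp only [Complex.ofReal_one, one_mul] at h1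
  rw [h1]
  field_simp

lemma norm_sub_ang {u v : ℂ} (hu : ‖u‖ = 1) (hv : ‖v‖ = 1) :
    ‖u - v‖ = 2 * |sin (ang u v / 2)| := by
  have h1 : ec 0 = 1 := by unfold ec; simp
  have h2 : u - v = (ec 0 - ec (ang u v)) * u := by
    rw [sub_mul, ec_ang hu hv, h1, one_mul]
  rw [h2, norm_mul, hu, mul_one, norm_ec_sub, zero_sub, neg_div, sin_neg, abs_neg]

lemma abs_ang_le_pi (u v : ℂ) : |ang u v| ≤ π := Complex.abs_arg_le_pi _

lemma abs_ang_lt {u v : ℂ} (hu : ‖u‖ = 1) (hv : ‖v‖ = 1) {A : ℝ} (hA0 : 0 ≤ A) (hA : A ≤ π)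
    (h : ‖u - v‖ < 2 * sin (A / 2)) : |ang u v| < A := by
  by_contra hc
  push Not at hc
  rw [norm_sub_ang hu hv] at h
  have h1 : |sin (ang u v / 2)| = sin (|ang u v| / 2) := by
    have hp := abs_ang_le_pi u v
    have : 0 ≤ sin (|ang u v| / 2) :=
      sin_nonneg_of_nonneg_of_le_pi (by positivity) (by linarith [pi_pos])
    rcases abs_cases (ang u v) with ⟨h1, _⟩ | ⟨h1, _⟩
    · rw [h1] at this ⊢; exact abs_of_nonneg this
    · rw [h1] at this ⊢
      rw [neg_div, sin_neg] at this ⊢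
      rw [abs_of_nonpos (by linarith)]
  rw [h1] at h
  have h2 : sin (A / 2) ≤ sin (|ang u v| / 2) :=
    sin_le_sin_of_le_of_le_pi_div_two (by linarith [pi_pos])
      (by linarith [abs_ang_le_pi u v]) (by linarith)
  linarith

lemma ec_eq_one {a : ℝ} (h : ec a = 1) (ha : |a| < 2 * π) : a = 0 := by
  unfold ec at h
  rw [Complex.exp_eq_one_iff] at h
  obtain ⟨n, hn⟩ := h
  have h1 : a = n * (2 * π) := by
    have h2 := congrArg Complex.im hn
    simp at h2
    exact h2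
  have hn0 : n = 0 := by
    by_contra hne
    have : (1:ℝ) ≤ |(n:ℝ)| := by
      have := Int.one_le_abs hne
      exact_mod_cast this
    rw [h1, abs_mul, abs_of_pos (by positivity : (0:ℝ) < 2 * π)] at ha
    nlinarith [pi_pos]
  rw [h1, hn0]; simp

lemma ang_add {u v w : ℂ} (hu : ‖u‖ = 1) (hv : ‖v‖ = 1) (hw : ‖w‖ = 1) {A : ℝ}
    (hA : 3 * A ≤ 2 * π) (h1 : |ang u v| < A) (h2 : |ang v w| < A) (h3 : |ang u w| < A) :
    ang u v + ang v w = ang u w := by
  have hu0 : u ≠ 0 := by intro h; rw [h, norm_zero] at hu; exact zero_ne_one hu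
  have key : ec (ang u v + ang v w - ang u w) = 1 := by
    have e1 : ec (ang u v + ang v w) * u = w := by
      rw [add_comm, ec_add, mul_assoc, ec_ang hu hv, ec_ang hv hw]
    have e2 := ec_ang hu hw
    have e3 : ec (ang u v + ang v w) = ec (ang u w) := by
      apply mul_right_cancel₀ hu0; rw [e1, e2]
    have e4 : ec (ang u v + ang v w - ang u w) * ec (ang u w) = ec (ang u w) := by
      rw [← ec_add, sub_add_cancel, e3]
    have hne : ec (ang u w) ≠ 0 := by
      intro h; have := norm_ec (ang u w); rw [h, norm_zero] at this; exact zero_ne_one this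
    apply mul_right_cancel₀ hne; rw [e4, one_mul]
  have hlt : |ang u v + ang v w - ang u w| < 2 * π := by
    rw [abs_lt] at *
    constructor <;> linarith [h1.1, h1.2, h2.1, h2.2, h3.1, h3.2]
  have := ec_eq_one key hlt
  linarith

section lift

variable (f : ℂ → ℂ) (N : ℕ)

/-- The value at the `k`-th point of the ray through `z`. -/
noncomputable def pr (k : ℕ) (z : ℂ) : ℂ := f (((k : ℝ) / N : ℝ) * z)

/-- The angle collected along the ray through `z`. -/
noncomputable def Th : ℕ → ℂ → ℝ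
  | 0, _ => 0
  | k + 1, z => Th k z + ang (pr f N k z) (pr f N (k + 1) z)

end lift

lemma norm_ray {N k : ℕ} (hN : 0 < N) (hk : k ≤ N) {z : ℂ} (hz : ‖z‖ = 1) :
    ‖(((k : ℝ) / N : ℝ) * z : ℂ)‖ ≤ 1 := by
  rw [norm_mul, hz, mul_one, Complex.norm_real, Real.norm_of_nonneg (by positivity)]
  rw [div_le_one (by exact_mod_cast hN)]
  exact_mod_cast hk

lemma ec_Th {f : ℂ → ℂ} (hf : ∀ z, ‖z‖ ≤ 1 → ‖f z‖ = 1) {N : ℕ} (hN : 0 < N) {z : ℂ}
    (hz : ‖z‖ = 1) (k : ℕ) (hk : k ≤ N) : ec (Th f N k z) * f 0 = pr f N k z := by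
  induction k with
  | zero => simp [Th, pr, ec]
  | succ k ih =>
    have h1 := ih (by omega)
    show ec (Th f N k z + ang (pr f N k z) (pr f N (k + 1) z)) * f 0 = _
    rw [add_comm, ec_add, mul_assoc, h1]
    exact ec_ang (hf _ (norm_ray hN (by omega) hz)) (hf _ (norm_ray hN hk hz))

lemma Th_sub {f : ℂ → ℂ} (hf : ∀ z, ‖z‖ ≤ 1 → ‖f z‖ = 1) {A δ : ℝ} (hA0 : 0 ≤ A)
    (hA : 3 * A ≤ 2 * π)
    (h1 : ∀ z w, ‖z‖ ≤ 1 → ‖w‖ ≤ 1 → ‖z - w‖ ≤ δ → ‖f z - f w‖ < 2 * sin (A / 2))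
    {N : ℕ} (hN : 0 < N) (hNδ : 1 / (N:ℝ) ≤ δ / 2) {z w : ℂ} (hz : ‖z‖ = 1) (hw : ‖w‖ = 1)
    (hzw : ‖z - w‖ ≤ δ / 2) (k : ℕ) (hk : k ≤ N) :
    Th f N k w - Th f N k z = ang (pr f N k z) (pr f N k w) := by
  have hNpos : (0:ℝ) < N := by exact_mod_cast hN
  have hApi : A ≤ π := by linarith [pi_pos]
  have hδ : 0 ≤ δ := by
    have := norm_nonneg (z - w); linarith
  have hang : ∀ a b : ℂ, ‖a‖ ≤ 1 → ‖b‖ ≤ 1 → ‖a - b‖ ≤ δ → |ang (f a) (f b)| < A := by
    intro a b ha hb hab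
    exact abs_ang_lt (hf a ha) (hf b hb) hA0 hApi (h1 a b ha hb hab)
  induction k with
  | zero =>
    have h0 : pr f N 0 z = pr f N 0 w := by simp [pr]
    have hn : ‖pr f N 0 z‖ = 1 := hf _ (norm_ray hN (by omega) hz)
    simp only [Th, sub_self]
    rw [← h0]
    have hne : pr f N 0 z ≠ 0 := by
      intro h; rw [h, norm_zero] at hn; exact zero_ne_one hn
    unfold ang
    rw [div_self hne, Complex.arg_one]
  | succ k ih =>
    have ih' := ih (by omega)
    have hk' : k ≤ N := by omega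
    set a : ℂ := (((k : ℝ) / N : ℝ) : ℂ) * z with ha
    set b : ℂ := (((k + 1 : ℕ) : ℝ) / N : ℝ) * z with hb
    set a' : ℂ := (((k : ℝ) / N : ℝ) : ℂ) * w with ha'
    set b' : ℂ := (((k + 1 : ℕ) : ℝ) / N : ℝ) * w with hb'
    have na : ‖a‖ ≤ 1 := norm_ray hN hk' hz
    have nb : ‖b‖ ≤ 1 := norm_ray hN hk hz
    have na' : ‖a'‖ ≤ 1 := norm_ray hN hk' hw
    have nb' : ‖b'‖ ≤ 1 := norm_ray hN hk hw
    have hkN : ((k:ℝ) / N) ≤ 1 := by
      rw [div_le_one hNpos]; exact_mod_cast hk'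
    have hkN1 : (((k + 1 : ℕ) : ℝ) / N) ≤ 1 := by
      rw [div_le_one hNpos]; exact_mod_cast hk
    have dab : ‖a - b‖ ≤ δ / 2 := by
      have : a - b = ((-(1 / N) : ℝ) : ℂ) * z := by
        rw [ha, hb, ← sub_mul]; congr 1; rw [← Complex.ofReal_sub]; congr 1
        push_cast; field_simp; ring
      rw [this, norm_mul, hz, mul_one, Complex.norm_real, norm_neg,
        Real.norm_of_nonneg (by positivity)]
      exact hNδ
    have dab' : ‖a' - b'‖ ≤ δ / 2 := by
      have : a' - b' = ((-(1 / N) : ℝ) : ℂ) * w := by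
        rw [ha', hb', ← sub_mul]; congr 1; rw [← Complex.ofReal_sub]; congr 1
        push_cast; field_simp; ring
      rw [this, norm_mul, hw, mul_one, Complex.norm_real, norm_neg,
        Real.norm_of_nonneg (by positivity)]
      exact hNδ
    have daa : ‖a - a'‖ ≤ δ / 2 := by
      rw [ha, ha', ← mul_sub, norm_mul, Complex.norm_real, Real.norm_of_nonneg (by positivity)]
      have := norm_nonneg (z - w)
      have h0 : (0:ℝ) ≤ (k:ℝ) / N := by positivity
      nlinarith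
    have dbb : ‖b - b'‖ ≤ δ / 2 := by
      rw [hb, hb', ← mul_sub, norm_mul, Complex.norm_real, Real.norm_of_nonneg (by positivity)]
      have := norm_nonneg (z - w)
      have h0 : (0:ℝ) ≤ ((k + 1 : ℕ) : ℝ) / N := by positivity
      nlinarith
    have dab'' : ‖a - b'‖ ≤ δ := by
      calc ‖a - b'‖ = ‖(a - b) + (b - b')‖ := by ring_nf
        _ ≤ ‖a - b‖ + ‖b - b'‖ := norm_add_le _ _
        _ ≤ δ := by linarith
    have t1 : ang (f a) (f b) + ang (f b) (f b') = ang (f a) (f b') :=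
      ang_add (hf a na) (hf b nb) (hf b' nb') hA (hang a b na nb (by linarith))
        (hang b b' nb nb' (by linarith)) (hang a b' na nb' dab'')
    have t2 : ang (f a) (f a') + ang (f a') (f b') = ang (f a) (f b') :=
      ang_add (hf a na) (hf a' na') (hf b' nb') hA (hang a a' na na' (by linarith))
        (hang a' b' na' nb' (by linarith)) (hang a b' na nb' dab'')
    show (Th f N k w + ang (f a') (f b')) - (Th f N k z + ang (f a) (f b)) = ang (f b) (f b')
    have ih'' : Th f N k w - Th f N k z = ang (f a) (f a') := ih'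
    linarith

lemma gap_of_nonneg {x C c : ℝ} (hx : 0 ≤ x) (hC : C ≤ π) (hc : 2 * sin (C / 2) < c)
    (h : c ≤ 2 * |sin (x / 2)|) : C < x := by
  by_contra hcon
  push Not at hcon
  have h1 : |sin (x / 2)| = sin (x / 2) :=
    abs_of_nonneg (sin_nonneg_of_nonneg_of_le_pi (by positivity) (by linarith [pi_pos]))
  rw [h1] at h
  have h2 : sin (x / 2) ≤ sin (C / 2) :=
    sin_le_sin_of_le_of_le_pi_div_two (by linarith [pi_pos]) (by linarith) (by linarith)
  linarith

/-- The combinatorial heart of the lower bound. -/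
lemma arcs_contra {a b a' b' C c : ℝ} (hC : C ≤ π) (hc : 2 * sin (C / 2) < c)
    (h1 : b ≤ a) (h2 : a' ≤ b') (h3 : |a' - a| < 2 * C) (h4 : |b' - b| < 2 * C)
    (k1 : c ≤ ‖ec a - ec b‖) (k2 : c ≤ ‖ec a' - ec b'‖) (k3 : c ≤ ‖ec a - ec b'‖) : False := by
  rw [norm_ec_sub] at k1 k2 k3
  have g1 : C < a - b := gap_of_nonneg (by linarith) hC hc k1
  have g2 : C < b' - a' := by
    refine gap_of_nonneg (by linarith) hC hc ?_
    rw [show (b' - a') / 2 = -((a' - b') / 2) by ring, sin_neg, abs_neg]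
    exact k2
  rcases le_total b' a with h | h
  · have g3 : C < a - b' := gap_of_nonneg (by linarith) hC hc k3
    have := (abs_lt.1 h3).1
    linarith
  · have g3 : C < b' - a := by
      refine gap_of_nonneg (by linarith) hC hc ?_
      rw [show (b' - a) / 2 = -((a - b') / 2) by ring, sin_neg, abs_neg]
      exact k3
    have := (abs_lt.1 h4).2
    linarith

/-- No map from the disc to the circle has both properties. -/
theorem lower_core {C δ c : ℝ} (hC0 : 0 ≤ C) (hC : 3 * (2 * C) ≤ 2 * π) (hδ : 0 < δ)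
    (hc : 2 * sin (C / 2) < c) (f : ℂ → ℂ) (hf : ∀ z, ‖z‖ ≤ 1 → ‖f z‖ = 1)
    (h1 : ∀ z w, ‖z‖ ≤ 1 → ‖w‖ ≤ 1 → ‖z - w‖ ≤ δ → ‖f z - f w‖ < 2 * sin C)
    (h2 : ∀ z w, ‖z‖ = 1 → ‖w‖ = 1 → 2 - δ ≤ ‖z - w‖ → c ≤ ‖f z - f w‖) : False := by
  obtain ⟨N, hN⟩ := exists_nat_gt (max 1 (8 / δ))
  have hN1 : (1:ℝ) < N := lt_of_le_of_lt (le_max_left _ _) hN
  have hN2 : 8 / δ < N := lt_of_le_of_lt (le_max_right _ _) hN
  have hNpos : 0 < N := by
    have : (0:ℝ) < N := by linarith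
    exact_mod_cast this
  have hNR : (0:ℝ) < N := by exact_mod_cast hNpos
  have hNδ : 1 / (N:ℝ) ≤ δ / 8 := by
    rw [div_le_iff₀ hNR]
    rw [div_lt_iff₀ hδ] at hN2
    linarith
  have h1' : ∀ z w, ‖z‖ ≤ 1 → ‖w‖ ≤ 1 → ‖z - w‖ ≤ δ → ‖f z - f w‖ < 2 * sin (2 * C / 2) := by
    intro z w hz hw hzw
    rw [show 2 * C / 2 = C by ring]
    exact h1 z w hz hw hzw
  have hCpi : C ≤ π := by linarith [pi_pos]
  -- the vertices
  let x : ℕ → ℂ := fun j => ec (π * j / N)
  have nx : ∀ j, ‖x j‖ = 1 := fun j => norm_ec _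
  have nnx : ∀ j, ‖-x j‖ = 1 := fun j => by rw [norm_neg]; exact nx j
  have dx : ∀ j, ‖x j - x (j + 1)‖ ≤ δ / 2 := by
    intro j
    show ‖ec (π * j / N) - ec (π * (j + 1 : ℕ) / N)‖ ≤ δ / 2
    rw [norm_ec_sub]
    have h3 : |sin ((π * j / N - π * (j + 1 : ℕ) / N) / 2)| ≤
        |(π * j / N - π * (j + 1 : ℕ) / N) / 2| := abs_sin_le_abs
    have h4 : (π * j / N - π * (j + 1 : ℕ) / N) / 2 = -(π * (1 / N) / 2) := by
      push_cast; field_simp; ring
    rw [h4, abs_neg (π * (1 / (N:ℝ)) / 2),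
      abs_of_nonneg (by positivity : (0:ℝ) ≤ π * (1 / (N:ℝ)) / 2)] at h3
    rw [h4]
    have := pi_le_four
    have h5 : π * (1 / N) ≤ 4 * (δ / 8) := by
      have : (0:ℝ) ≤ 1 / (N:ℝ) := by positivity
      nlinarith [pi_pos]
    linarith
  let g : ℕ → ℝ := fun j => Th f N N (x j) - Th f N N (-x j)
  have x0 : x 0 = 1 := by simp [x, ec]
  have xN : x N = -1 := by
    show ec (π * N / N) = -1
    rw [mul_div_assoc, div_self (ne_of_gt hNR), mul_one]
    unfold ec
    exact Complex.exp_pi_mul_I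
  have gN : g N = - g 0 := by
    show Th f N N (x N) - Th f N N (-x N) = -(Th f N N (x 0) - Th f N N (-x 0))
    rw [x0, xN, neg_neg]; ring
  have pN : ∀ z, pr f N N z = f z := by
    intro z; unfold pr; rw [div_self (ne_of_gt hNR)]; simp
  have ecT : ∀ z, ‖z‖ = 1 → ec (Th f N N z) * f 0 = f z := by
    intro z hz; rw [ec_Th hf hNpos hz N le_rfl, pN]
  have nf0 : ‖f 0‖ = 1 := hf 0 (by simp)
  have nsub : ∀ z w, ‖z‖ = 1 → ‖w‖ = 1 →
      ‖ec (Th f N N z) - ec (Th f N N w)‖ = ‖f z - f w‖ := by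
    intro z w hz hw
    rw [← ecT z hz, ← ecT w hw, ← sub_mul, norm_mul, nf0, mul_one]
  have dTh : ∀ z w, ‖z‖ = 1 → ‖w‖ = 1 → ‖z - w‖ ≤ δ / 2 →
      |Th f N N w - Th f N N z| < 2 * C := by
    intro z w hz hw hzw
    rw [Th_sub hf (by linarith) hC h1' hNpos (by linarith) hz hw hzw N le_rfl, pN, pN]
    exact abs_ang_lt (hf z hz.le) (hf w hw.le) (by linarith) (by linarith [pi_pos])
      (h1' z w hz.le hw.le (by linarith))
  -- the sign change gives a contradiction
  have far : ∀ j, ∀ w, ‖w‖ = 1 → ‖x j - w‖ ≤ δ / 2 → c ≤ ‖f (x j) - f (-w)‖ ∧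
      c ≤ ‖f w - f (-x j)‖ := by
    intro j w hw hd
    constructor
    · apply h2 _ _ (nx j) (by rw [norm_neg]; exact hw)
      rw [sub_neg_eq_add]
      have : x j + w = 2 * x j - (x j - w) := by ring
      rw [this]
      have h3 := norm_sub_norm_le (2 * x j) (x j - w)
      rw [norm_mul, nx j] at h3
      simp only [Complex.norm_ofNat, mul_one] at h3
      linarith
    · apply h2 _ _ hw (nnx j)
      rw [sub_neg_eq_add]
      have : w + x j = 2 * x j - (x j - w) := by ring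
      rw [this]
      have h3 := norm_sub_norm_le (2 * x j) (x j - w)
      rw [norm_mul, nx j] at h3
      simp only [Complex.norm_ofNat, mul_one] at h3
      linarith
  have contra : ∀ j, ¬ (0 ≤ g j ∧ g (j + 1) ≤ 0) ∧ ¬ (g j ≤ 0 ∧ 0 ≤ g (j + 1)) := by
    intro j
    have d1 := dx j
    have d2 : ‖-x j - -x (j + 1)‖ ≤ δ / 2 := by
      rw [show -x j - -x (j + 1) = -(x j - x (j + 1)) by ring, norm_neg]; exact d1
    have e1 := dTh _ _ (nx j) (nx (j + 1)) d1
    have e2 := dTh _ _ (nnx j) (nnx (j + 1)) d2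
    have k1 : c ≤ ‖f (x j) - f (-x j)‖ :=
      (far j (x j) (nx j) (by rw [sub_self, norm_zero]; positivity)).1
    have k2 : c ≤ ‖f (x (j + 1)) - f (-x (j + 1))‖ :=
      (far (j + 1) (x (j + 1)) (nx (j + 1)) (by rw [sub_self, norm_zero]; positivity)).1
    have k3 : c ≤ ‖f (x j) - f (-x (j + 1))‖ := (far j _ (nx (j + 1)) d1).1
    have k4 : c ≤ ‖f (x (j + 1)) - f (-x j)‖ := (far j _ (nx (j + 1)) d1).2
    rw [← nsub _ _ (nx j) (nnx j)] at k1
    rw [← nsub _ _ (nx (j + 1)) (nnx (j + 1))] at k2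
    rw [← nsub _ _ (nx j) (nnx (j + 1))] at k3
    rw [← nsub _ _ (nx (j + 1)) (nnx j)] at k4
    constructor
    · rintro ⟨g1, g2⟩
      exact arcs_contra hCpi hc (sub_nonneg.1 g1) (sub_nonpos.1 g2) e1 e2 k1 k2 k3
    · rintro ⟨g1, g2⟩
      have g1' : Th f N N (x j) ≤ Th f N N (-x j) := sub_nonpos.1 g1
      have g2' : Th f N N (-x (j + 1)) ≤ Th f N N (x (j + 1)) := sub_nonneg.1 g2
      rw [norm_sub_rev] at k1 k2 k4
      exact arcs_contra hCpi hc g1' g2' e2 e1 k1 k2 k4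
  rcases le_total 0 (g 0) with h0 | h0
  · have hall : ∀ j, 0 ≤ g j := by
      intro j
      induction j with
      | zero => exact h0
      | succ j ih =>
        by_contra hneg
        push Not at hneg
        exact (contra j).1 ⟨ih, hneg.le⟩
    have hpos : 0 < g N := by
      obtain ⟨m, rfl⟩ : ∃ m, N = m + 1 := ⟨N - 1, by omega⟩
      by_contra hneg
      push Not at hneg
      exact (contra m).1 ⟨hall m, hneg⟩
    linarith
  · have hall : ∀ j, g j ≤ 0 := by
      intro j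
      induction j with
      | zero => exact h0
      | succ j ih =>
        by_contra hneg
        push Not at hneg
        exact (contra j).2 ⟨ih, hneg.le⟩
    have hpos : g N < 0 := by
      obtain ⟨m, rfl⟩ : ∃ m, N = m + 1 := ⟨N - 1, by omega⟩
      by_contra hneg
      push Not at hneg
      exact (contra m).2 ⟨hall m, hneg⟩
    linarith

end Pool.Agent.H88.GH
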