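import Mathlib
import Pool.Agent.H88.GH.Check
import Pool.Agent.H88.GH.Lower

/-!
The correspondence between the disc and the circle and its distortion.
-/

namespace Pool.Agent.H88.GH

open Real

section

variable {s : ℝ} (hs : 0 < s) (h : 4 * s ^ 3 + 4 * s ^ 2 + s = 1)

include hs h

lemma sin128 : sin (128 * xx s) = s := by
  unfold xx
  rw [mul_div_cancel₀ _ (by norm_num : (128:ℝ) ≠ 0)]
  have := s_upper h
  exact sin_arcsin (by linarith) (by linarith)

lemma sin256 : sin (256 * xx s) = 1 - s := by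
  have e : 256 * xx s = 2 * arcsin s := by unfold xx; ring
  have hu := s_upper h
  rw [e, sin_two_mul, sin_arcsin (by linarith) (by linarith), cos_arcsin]
  have h1 : 0 ≤ 2 * s * √(1 - s ^ 2) := by positivity
  have h2 : 0 ≤ 1 - s := by linarith
  rw [← pow_left_inj₀ h1 h2 two_ne_zero, mul_pow, Real.sq_sqrt (by nlinarith)]
  have : (2 * s) ^ 2 * (1 - s ^ 2) - (1 - s) ^ 2 = (1 - s) * (4 * s ^ 3 + 4 * s ^ 2 + s - 1) := by
    ring
  rw [h] at this
  linarith

lemma xx_pos : 0 < xx s := by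
  obtain ⟨h1, -⟩ := sin_bounds hs h
  rcases (xx_nonneg hs).eq_or_lt with h0 | h0
  · rw [← h0, sin_zero] at h1; norm_num at h1
  · exact h0

lemma xx_lower : 0.0027752672269288971616 ≤ xx s := by
  obtain ⟨h1, -⟩ := sin_bounds hs h
  exact h1.trans (sin_le (xx_nonneg hs))

lemma xx_upper : xx s ≤ 0.0027753 := by
  obtain ⟨-, h1⟩ := sin_bounds hs h
  have h0 := xx_pos hs h
  have hle : xx s ≤ 1 / 64 := xx_le
  by_contra hc
  push Not at hc
  have h2 : sin 0.0027753 ≤ sin (xx s) :=
    sin_le_sin_of_le_of_le_pi_div_two (by linarith [pi_gt_three]) (by linarith [pi_gt_three])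
      hc.le
  have h3 := sin_gt_sub_cube (x := 0.0027753) (by norm_num)
  norm_num at h1 h2 h3
  linarith

lemma pi_low : 1131 * xx s ≤ π := by
  have h1 := xx_upper hs h
  have h2 := pi_gt_d2
  norm_num at h1 h2
  linarith

lemma pi_low2 : 565 * xx s ≤ π / 2 := by
  have h1 := xx_upper hs h
  have h2 := pi_gt_d2
  norm_num at h1 h2
  linarith

lemma pi_up : π ≤ 1132 * xx s := by
  have h1 := xx_lower hs h
  have h2 := pi_lt_d6
  norm_num at h1 h2
  linarith

/-- Upper bound of the sine on an interval of angles. -/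
lemma Ub_sound {a b : ℕ} {y : ℝ} (h1 : a * xx s ≤ y) (h2 : y ≤ b * xx s) :
    2000000 * |sin y| ≤ (Ub a b : ℝ) := by
  have hx := xx_pos hs h
  have hy0 : 0 ≤ y := le_trans (by positivity) h1
  have p1 := pi_low hs h
  have p2 := pi_low2 hs h
  have p3 := pi_up hs h
  have triv : 2000000 * |sin y| ≤ 2000000 := by
    have := abs_sin_le_one y
    linarith
  unfold Ub
  rcases Bool.eq_false_or_eq_true (Nat.ble b 565) with hb | hb
  · rw [hb, cond_true]
    have hb' : b ≤ 565 := Nat.le_of_ble_eq_true hb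
    have hbR : (b:ℝ) ≤ 565 := by exact_mod_cast hb'
    have hbx : b * xx s ≤ π / 2 := (mul_le_mul_of_nonneg_right hbR hx.le).trans p2
    rw [abs_of_nonneg (sin_nonneg_of_nonneg_of_le_pi hy0 (by linarith [pi_pos]))]
    have h3 := (table hs h b (by omega)).2
    have h4 : sin y ≤ sin (b * xx s) :=
      sin_le_sin_of_le_of_le_pi_div_two (by linarith [pi_pos]) hbx h2
    push_cast
    linarith
  · rw [hb, cond_false]
    rcases Bool.eq_false_or_eq_true (Nat.ble 567 a && Nat.ble b 1131) with hc | hc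
    · rw [hc, cond_true]
      rw [Bool.and_eq_true] at hc
      have ha' : 567 ≤ a := Nat.le_of_ble_eq_true hc.1
      have hb' : b ≤ 1131 := Nat.le_of_ble_eq_true hc.2
      have haR : (567:ℝ) ≤ a := by exact_mod_cast ha'
      have hbR : (b:ℝ) ≤ 1131 := by exact_mod_cast hb'
      have hax : π / 2 ≤ a * xx s :=
        le_trans (by linarith) (mul_le_mul_of_nonneg_right haR hx.le)
      have hbx : b * xx s ≤ π := (mul_le_mul_of_nonneg_right hbR hx.le).trans p1
      have hab : (a:ℝ) ≤ b := by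
        by_contra hlt
        push Not at hlt
        have := mul_lt_mul_of_pos_right hlt hx
        linarith
      have hab' : a ≤ b := by exact_mod_cast hab
      rw [abs_of_nonneg (sin_nonneg_of_nonneg_of_le_pi hy0 (by linarith))]
      have h3 := (table hs h a (by omega)).2
      have h4 : sin y ≤ sin (a * xx s) := by
        rw [← sin_pi_sub y, ← sin_pi_sub (a * xx s)]
        exact sin_le_sin_of_le_of_le_pi_div_two (by linarith) (by linarith) (by linarith)
      push_cast
      linarith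
    · rw [hc, cond_false]
      push_cast
      exact triv

/-- Lower bound of the sine on an interval of angles. -/
lemma Lb_sound {a b : ℕ} {y : ℝ} (h1 : a * xx s ≤ y) (h2 : y ≤ b * xx s) :
    (Lb a b : ℝ) ≤ 2000000 * |sin y| := by
  have hx := xx_pos hs h
  have hy0 : 0 ≤ y := le_trans (by positivity) h1
  have p1 := pi_low hs h
  unfold Lb
  rcases Bool.eq_false_or_eq_true (Nat.ble b 1131) with hb | hb
  · rw [hb, cond_true]
    have hb' : b ≤ 1131 := Nat.le_of_ble_eq_true hb
    have hbR : (b:ℝ) ≤ 1131 := by exact_mod_cast hb'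
    have hbx : b * xx s ≤ π := (mul_le_mul_of_nonneg_right hbR hx.le).trans p1
    have hab : (a:ℝ) ≤ b := by
      by_contra hlt
      push Not at hlt
      have := mul_lt_mul_of_pos_right hlt hx
      linarith
    have hab' : a ≤ b := by exact_mod_cast hab
    rw [abs_of_nonneg (sin_nonneg_of_nonneg_of_le_pi hy0 (by linarith))]
    have ta := (table hs h a (by omega)).1
    have tb' := (table hs h b hb').1
    rcases le_total y (π / 2) with hy | hy
    · have h4 : sin (a * xx s) ≤ sin y :=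
        sin_le_sin_of_le_of_le_pi_div_two (by
          have : 0 ≤ a * xx s := by positivity
          linarith [pi_pos]) hy h1
      have : (min (tb a - 1) (tb b - 1) : ℕ) ≤ tb a - 1 := min_le_left _ _
      have : ((min (tb a - 1) (tb b - 1) : ℕ) : ℝ) ≤ ((tb a - 1 : ℕ) : ℝ) := by
        exact_mod_cast this
      linarith
    · have h4 : sin (b * xx s) ≤ sin y := by
        rw [← sin_pi_sub y, ← sin_pi_sub (b * xx s)]
        exact sin_le_sin_of_le_of_le_pi_div_two (by linarith) (by linarith) (by linarith)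
      have : (min (tb a - 1) (tb b - 1) : ℕ) ≤ tb b - 1 := min_le_right _ _
      have : ((min (tb a - 1) (tb b - 1) : ℕ) : ℝ) ≤ ((tb b - 1 : ℕ) : ℝ) := by
        exact_mod_cast this
      linarith
  · rw [hb, cond_false]
    push_cast
    positivity

lemma okhi_sound {a b D : ℕ} {y d : ℝ} (hok : okhi a b D = true) (h1 : a * xx s ≤ y)
    (h2 : y ≤ b * xx s) (hd : 0 ≤ d) (hD : (D:ℝ) ≤ 1000000 * d ^ 2) :
    2 * |sin y| ≤ 2 * (1 - s) + d := by
  have hx := xx_pos hs h
  have hy0 : 0 ≤ y := le_trans (by positivity) h1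
  have hu := s_upper h
  unfold okhi at hok
  rw [Bool.or_eq_true] at hok
  rcases hok with hok | hok
  · have hb' : b ≤ 256 := Nat.le_of_ble_eq_true hok
    have hbR : (b:ℝ) ≤ 256 := by exact_mod_cast hb'
    have hbx : b * xx s ≤ 256 * xx s := mul_le_mul_of_nonneg_right hbR hx.le
    have p2 := pi_low2 hs h
    have h256 : 256 * xx s ≤ π / 2 := by linarith
    rw [abs_of_nonneg (sin_nonneg_of_nonneg_of_le_pi hy0 (by linarith [pi_pos]))]
    have h4 : sin y ≤ sin (256 * xx s) :=
      sin_le_sin_of_le_of_le_pi_div_two (by linarith [pi_pos]) h256 (by linarith)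
    rw [sin256 hs h] at h4
    linarith
  · have hle := Nat.le_of_ble_eq_true hok
    have hsubN : Ub a b ≤ (Ub a b - 1304379) + 1304379 := by omega
    generalize Ub a b - 1304379 = U at hle hsubN
    have hleR : (U:ℝ) * U ≤ (D:ℝ) * 1000000 := by exact_mod_cast hle
    have hsub : (Ub a b : ℝ) ≤ (U:ℝ) + 1304379 := by exact_mod_cast hsubN
    have h0 : (0:ℝ) ≤ (U:ℝ) := by positivity
    have h3 : (U:ℝ) ≤ 1000000 * d := by
      clear hsubN hle hsub
      apply (pow_le_pow_iff_left₀ h0 (by positivity) two_ne_zero).1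
      calc (U:ℝ) ^ 2 = U * U := sq _
        _ ≤ D * 1000000 := hleR
        _ ≤ (1000000 * d ^ 2) * 1000000 := by linarith
        _ = (1000000 * d) ^ 2 := by ring
    have h4 := Ub_sound hs h h1 h2
    norm_num at hu
    linarith

lemma oklo_sound {a b E : ℕ} {y d : ℝ} (hok : oklo a b E = true) (h1 : a * xx s ≤ y)
    (h2 : y ≤ b * xx s) (hd : 0 ≤ d) (hd2 : d ≤ 2) (hE : 1000000 * d ^ 2 ≤ (E:ℝ)) :
    d ≤ 2 * (1 - s) + 2 * |sin y| := by
  have hx := xx_pos hs h
  have hy0 : 0 ≤ y := le_trans (by positivity) h1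
  have hu := s_upper h
  have p1 := pi_low hs h
  have p2 := pi_low2 hs h
  unfold oklo at hok
  rw [Bool.or_eq_true, Bool.and_eq_true] at hok
  rcases hok with ⟨hok1, hok2⟩ | hok
  · have ha' : 128 ≤ a := Nat.le_of_ble_eq_true hok1
    have hb' : b ≤ 1003 := Nat.le_of_ble_eq_true hok2
    have haR : (128:ℝ) ≤ a := by exact_mod_cast ha'
    have hbR : (b:ℝ) ≤ 1003 := by exact_mod_cast hb'
    have hax : 128 * xx s ≤ a * xx s := mul_le_mul_of_nonneg_right haR hx.le
    have hbx : b * xx s ≤ 1003 * xx s := mul_le_mul_of_nonneg_right hbR hx.le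
    have h5 : s ≤ sin y := by
      rw [← sin128 hs h]
      rcases le_total y (π / 2) with hy | hy
      · exact sin_le_sin_of_le_of_le_pi_div_two (by linarith [pi_pos]) hy (by linarith)
      · rw [← sin_pi_sub y]
        exact sin_le_sin_of_le_of_le_pi_div_two (by linarith [pi_pos]) (by linarith)
          (by linarith)
    have h6 : sin y ≤ |sin y| := le_abs_self _
    linarith
  · have hle := Nat.le_of_ble_eq_true hok
    have hleR : (E:ℝ) * 1000000 ≤ (1304379 + (Lb a b : ℝ)) * (1304379 + (Lb a b : ℝ)) := by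
      exact_mod_cast hle
    have h0 : (0:ℝ) ≤ 1304379 + (Lb a b : ℝ) := by positivity
    have h3 : 1000000 * d ≤ 1304379 + (Lb a b : ℝ) := by
      apply (pow_le_pow_iff_left₀ (by positivity) h0 two_ne_zero).1
      nlinarith
    have h4 := Lb_sound hs h h1 h2
    norm_num at hu
    linarith

end

lemma gap_sound {a0 a1 b0 b1 : ℕ} {t r : ℝ} (h1 : a0 ≤ t) (h2 : t ≤ a1) (h3 : b0 ≤ r)
    (h4 : r ≤ b1) : (gap a0 a1 b0 b1 : ℝ) ≤ |t - r| := by
  have ha : a0 ≤ a1 := by exact_mod_cast h1.trans h2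
  have hb : b0 ≤ b1 := by exact_mod_cast h3.trans h4
  unfold gap
  rcases le_total b0 a1 with hc | hc
  · rcases le_total a0 b1 with hd | hd
    · rw [Nat.sub_eq_zero_of_le hc, Nat.sub_eq_zero_of_le hd]
      push_cast; simp
    · rw [Nat.sub_eq_zero_of_le hc, zero_add, Nat.cast_sub hd]
      rw [le_abs]; left; linarith
  · have hd : a0 ≤ b1 := by omega
    rw [Nat.sub_eq_zero_of_le hd, add_zero, Nat.cast_sub hc]
    rw [le_abs]; right; linarith

lemma far_sound {a0 a1 b0 b1 : ℕ} {t r : ℝ} (h1 : a0 ≤ t) (h2 : t ≤ a1) (h3 : b0 ≤ r)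
    (h4 : r ≤ b1) : |t - r| ≤ (far a0 a1 b0 b1 : ℝ) := by
  unfold far
  have e1 : (a1:ℝ) ≤ ((a1 - b0 : ℕ) : ℝ) + b0 := by
    have : a1 ≤ (a1 - b0) + b0 := by omega
    exact_mod_cast this
  have e2 : (b1:ℝ) ≤ ((b1 - a0 : ℕ) : ℝ) + a0 := by
    have : b1 ≤ (b1 - a0) + a0 := by omega
    exact_mod_cast this
  rw [abs_le]
  constructor
  · have : ((b1 - a0 : ℕ) : ℝ) ≤ ((max (a1 - b0) (b1 - a0) : ℕ) : ℝ) := by
      exact_mod_cast le_max_right _ _
    linarith
  · have : ((a1 - b0 : ℕ) : ℝ) ≤ ((max (a1 - b0) (b1 - a0) : ℕ) : ℝ) := by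
      exact_mod_cast le_max_left _ _
    linarith

end Pool.Agent.H88.GH
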