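import Mathlib
import Pool.Agent.H88.GH.Upper

/-!
The correspondence, its distortion, and the fact that it covers the disc and the circle.
-/

namespace Pool.Agent.H88.GH

open Real ComplexConjugate

/-- The point with coordinates `(u, v)` lies in the box of an item. -/
def inbox (it : It) (u v : ℝ) : Prop :=
  (it.X0 : ℝ) ≤ 1000 * (u + 1) ∧ 1000 * (u + 1) ≤ it.X1 ∧ (it.Y0 : ℝ) ≤ 1000 * v ∧
    1000 * v ≤ it.Y1

/-- A point of the disc and a point of the circle matched by an item. -/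
def RelT (s : ℝ) (it : It) (p z : ℂ) : Prop :=
  ‖p‖ ≤ 1 ∧ inbox it p.re p.im ∧
    ∃ θ : ℝ, it.a * (2 * xx s) ≤ θ ∧ θ ≤ it.b * (2 * xx s) ∧ z = ec θ

/-- The correspondence. -/
def Rl (s : ℝ) (p z : ℂ) : Prop :=
  ∃ it ∈ lst, RelT s it p z ∨ RelT s it (conj p) (conj z)

lemma conj_ec (θ : ℝ) : conj (ec θ) = ec (-θ) := by
  apply Complex.ext
  · rw [Complex.conj_re, ec_re, ec_re, cos_neg]
  · rw [Complex.conj_im, ec_im, ec_im, sin_neg]

lemma norm_conj_sub (p q : ℂ) : ‖conj p - conj q‖ = ‖p - q‖ := by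
  rw [← map_sub, Complex.norm_conj]

lemma norm_sub_sq' (p q : ℂ) : ‖p - q‖ ^ 2 = (p.re - q.re) ^ 2 + (p.im - q.im) ^ 2 := by
  rw [← Complex.normSq_eq_norm_sq, Complex.normSq_apply, Complex.sub_re, Complex.sub_im]
  ring

section

variable {s : ℝ} (hs : 0 < s) (h : 4 * s ^ 3 + 4 * s ^ 2 + s = 1)

include hs h

lemma okp_TT {P Q : It} (hok : okp P Q = true) {p q z w : ℂ} (hp : RelT s P p z)
    (hq : RelT s Q q w) : |‖p - q‖ - ‖z - w‖| ≤ 2 * (1 - s) := by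
  obtain ⟨np, ⟨p1, p2, p3, p4⟩, θ, t1, t2, rfl⟩ := hp
  obtain ⟨nq, ⟨q1, q2, q3, q4⟩, φ, f1, f2, rfl⟩ := hq
  unfold okp at hok
  rw [Bool.and_eq_true, Bool.and_eq_true, Bool.and_eq_true] at hok
  obtain ⟨⟨⟨ok1, ok2⟩, -⟩, -⟩ := hok
  have hx := xx_pos hs h
  have h2x : 0 < 2 * xx s := by positivity
  have gX := gap_sound p1 p2 q1 q2
  have gY := gap_sound p3 p4 q3 q4
  have fX := far_sound p1 p2 q1 q2
  have fY := far_sound p3 p4 q3 q4
  have gA := gap_sound ((le_div_iff₀ h2x).2 t1) ((div_le_iff₀ h2x).2 t2)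
    ((le_div_iff₀ h2x).2 f1) ((div_le_iff₀ h2x).2 f2)
  have fA := far_sound ((le_div_iff₀ h2x).2 t1) ((div_le_iff₀ h2x).2 t2)
    ((le_div_iff₀ h2x).2 f1) ((div_le_iff₀ h2x).2 f2)
  rw [← sub_div, abs_div, abs_of_pos h2x] at gA fA
  rw [le_div_iff₀ h2x] at gA
  rw [div_le_iff₀ h2x] at fA
  have e1 : 1000 * (p.re + 1) - 1000 * (q.re + 1) = 1000 * (p.re - q.re) := by ring
  have e2 : 1000 * p.im - 1000 * q.im = 1000 * (p.im - q.im) := by ring
  rw [e1] at gX fX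
  rw [e2] at gY fY
  have hsin : ‖ec θ - ec φ‖ = 2 * |sin (|θ - φ| / 2)| := by
    rw [norm_ec_sub]
    rcases abs_cases (θ - φ) with ⟨hh, _⟩ | ⟨hh, _⟩
    · rw [hh]
    · rw [hh, neg_div, sin_neg, abs_neg]
  have hn := norm_sub_sq' p q
  have hd0 := norm_nonneg (p - q)
  have hd2 : ‖p - q‖ ≤ 2 := (norm_sub_le p q).trans (by linarith)
  have y1 : (gap P.a P.b Q.a Q.b : ℝ) * xx s ≤ |θ - φ| / 2 := by linarith
  have y2 : |θ - φ| / 2 ≤ (far P.a P.b Q.a Q.b : ℝ) * xx s := by linarith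
  have a1 : ((gap P.X0 P.X1 Q.X0 Q.X1 : ℕ) : ℝ) ^ 2 ≤ (1000 * (p.re - q.re)) ^ 2 := by
    rw [← sq_abs (1000 * (p.re - q.re))]
    exact pow_le_pow_left₀ (by positivity) gX 2
  have a2 : ((gap P.Y0 P.Y1 Q.Y0 Q.Y1 : ℕ) : ℝ) ^ 2 ≤ (1000 * (p.im - q.im)) ^ 2 := by
    rw [← sq_abs (1000 * (p.im - q.im))]
    exact pow_le_pow_left₀ (by positivity) gY 2
  have a3 : (1000 * (p.re - q.re)) ^ 2 ≤ ((far P.X0 P.X1 Q.X0 Q.X1 : ℕ) : ℝ) ^ 2 := by
    rw [← sq_abs (1000 * (p.re - q.re))]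
    exact pow_le_pow_left₀ (abs_nonneg _) fX 2
  have a4 : (1000 * (p.im - q.im)) ^ 2 ≤ ((far P.Y0 P.Y1 Q.Y0 Q.Y1 : ℕ) : ℝ) ^ 2 := by
    rw [← sq_abs (1000 * (p.im - q.im))]
    exact pow_le_pow_left₀ (abs_nonneg _) fY 2
  have b1 := okhi_sound hs h ok1 y1 y2 hd0 (by
    push_cast
    rw [hn]
    linarith)
  have b2 := oklo_sound hs h ok2 y1 y2 hd0 hd2 (by
    push_cast
    rw [hn]
    linarith)
  rw [hsin, abs_le]
  constructor <;> linarith

lemma okp_TB {P Q : It} (hok : okp P Q = true) {p q z w : ℂ} (hp : RelT s P p z)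
    (hq : RelT s Q (conj q) (conj w)) : |‖p - q‖ - ‖z - w‖| ≤ 2 * (1 - s) := by
  obtain ⟨np, ⟨p1, p2, p3, p4⟩, θ, t1, t2, rfl⟩ := hp
  obtain ⟨nq, ⟨q1, q2, q3, q4⟩, φ, f1, f2, hw⟩ := hq
  have hw' : w = ec (-φ) := by rw [← conj_ec, ← hw, Complex.conj_conj]
  rw [hw']
  rw [Complex.norm_conj] at nq
  rw [Complex.conj_re] at q1 q2
  rw [Complex.conj_im] at q3 q4
  unfold okp at hok
  rw [Bool.and_eq_true, Bool.and_eq_true, Bool.and_eq_true] at hok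
  obtain ⟨⟨-, ok1⟩, ok2⟩ := hok
  have hx := xx_pos hs h
  have gX := gap_sound p1 p2 q1 q2
  have fX := far_sound p1 p2 q1 q2
  have e1 : 1000 * (p.re + 1) - 1000 * (q.re + 1) = 1000 * (p.re - q.re) := by ring
  rw [e1] at gX fX
  have y1 : ((P.a + Q.a : ℕ) : ℝ) * xx s ≤ (θ + φ) / 2 := by push_cast; linarith
  have y2 : (θ + φ) / 2 ≤ ((P.b + Q.b : ℕ) : ℝ) * xx s := by push_cast; linarith
  have hsin : ‖ec θ - ec (-φ)‖ = 2 * |sin ((θ + φ) / 2)| := by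
    rw [norm_ec_sub, sub_neg_eq_add]
  have hn := norm_sub_sq' p q
  have hd0 := norm_nonneg (p - q)
  have hd2 : ‖p - q‖ ≤ 2 := (norm_sub_le p q).trans (by linarith)
  have a1 : ((gap P.X0 P.X1 Q.X0 Q.X1 : ℕ) : ℝ) ^ 2 ≤ (1000 * (p.re - q.re)) ^ 2 := by
    rw [← sq_abs (1000 * (p.re - q.re))]
    exact pow_le_pow_left₀ (by positivity) gX 2
  have a3 : (1000 * (p.re - q.re)) ^ 2 ≤ ((far P.X0 P.X1 Q.X0 Q.X1 : ℕ) : ℝ) ^ 2 := by
    rw [← sq_abs (1000 * (p.re - q.re))]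
    exact pow_le_pow_left₀ (abs_nonneg _) fX 2
  have a2 : ((P.Y0 + Q.Y0 : ℕ) : ℝ) ^ 2 ≤ (1000 * (p.im - q.im)) ^ 2 := by
    apply pow_le_pow_left₀ (by positivity)
    push_cast; linarith
  have a4 : (1000 * (p.im - q.im)) ^ 2 ≤ ((P.Y1 + Q.Y1 : ℕ) : ℝ) ^ 2 := by
    have hY0 : (0:ℝ) ≤ P.Y0 := by positivity
    have hY0' : (0:ℝ) ≤ Q.Y0 := by positivity
    apply pow_le_pow_left₀ (by linarith)
    push_cast; linarith
  have b1 := okhi_sound hs h ok1 y1 y2 hd0 (by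
    push_cast at a1 a2 a3 a4 ⊢
    rw [hn]
    linarith)
  have b2 := oklo_sound hs h ok2 y1 y2 hd0 hd2 (by
    push_cast at a1 a2 a3 a4 ⊢
    rw [hn]
    linarith)
  rw [hsin, abs_le]
  constructor <;> linarith

end

lemma allp_sound (l : List It) (hl : allp l = true) :
    ∀ P ∈ l, ∀ Q ∈ l, okp P Q = true ∨ okp Q P = true := by
  induction l with
  | nil => intro P hP; simp at hP
  | cons a l ih =>
    unfold allp at hl
    rw [Bool.and_eq_true, Bool.and_eq_true, List.all_eq_true] at hl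
    obtain ⟨⟨h1, h2⟩, h3⟩ := hl
    intro P hP Q hQ
    rw [List.mem_cons] at hP hQ
    rcases hP with rfl | hP
    · rcases hQ with rfl | hQ
      · exact Or.inl h1
      · exact Or.inl (h2 Q hQ)
    · rcases hQ with rfl | hQ
      · exact Or.inr (h2 P hP)
      · exact ih h3 P hP Q hQ

/-- The distortion of the correspondence. -/
theorem dis_le {s : ℝ} (hs : 0 < s) (h : 4 * s ^ 3 + 4 * s ^ 2 + s = 1) {p q z w : ℂ}
    (hp : Rl s p z) (hq : Rl s q w) : |‖p - q‖ - ‖z - w‖| ≤ 2 * (1 - s) := by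
  obtain ⟨P, hP, hp⟩ := hp
  obtain ⟨Q, hQ, hq⟩ := hq
  have hPQ := allp_sound lst allp_ok P hP Q hQ
  rcases hp with hp | hp
  · rcases hq with hq | hq
    · rcases hPQ with ok | ok
      · exact okp_TT hs h ok hp hq
      · rw [norm_sub_rev p q, norm_sub_rev z w]
        exact okp_TT hs h ok hq hp
    · rcases hPQ with ok | ok
      · exact okp_TB hs h ok hp hq
      · rw [← norm_conj_sub p q, ← norm_conj_sub z w, norm_sub_rev (conj p), norm_sub_rev (conj z)]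
        exact okp_TB hs h ok hq (by rwa [Complex.conj_conj, Complex.conj_conj])
  · rcases hq with hq | hq
    · rcases hPQ with ok | ok
      · rw [← norm_conj_sub p q, ← norm_conj_sub z w]
        exact okp_TB hs h ok hp (by rwa [Complex.conj_conj, Complex.conj_conj])
      · rw [norm_sub_rev p q, norm_sub_rev z w]
        exact okp_TB hs h ok hq hp
    · rw [← norm_conj_sub p q, ← norm_conj_sub z w]
      rcases hPQ with ok | ok
      · exact okp_TT hs h ok hp hq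
      · rw [norm_sub_rev (conj p), norm_sub_rev (conj z)]
        exact okp_TT hs h ok hq hp

lemma mem_items_acc (t : Tr) : ∀ (X0 X1 Y0 Y1 : ℕ) (acc : List It) (it : It), it ∈ acc →
    it ∈ items t X0 X1 Y0 Y1 acc := by
  induction t with
  | o => intro X0 X1 Y0 Y1 acc it hit; exact hit
  | l w => intro X0 X1 Y0 Y1 acc it hit; exact List.mem_cons_of_mem _ hit
  | x c a b iha ihb =>
    intro X0 X1 Y0 Y1 acc it hit
    exact iha _ _ _ _ _ _ (ihb _ _ _ _ _ _ hit)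
  | y c a b iha ihb =>
    intro X0 X1 Y0 Y1 acc it hit
    exact iha _ _ _ _ _ _ (ihb _ _ _ _ _ _ hit)

lemma cover_tree (t : Tr) : ∀ (X0 X1 Y0 Y1 : ℕ) (acc : List It), chk t X0 X1 Y0 Y1 = true →
    ∀ u v : ℝ, (X0 : ℝ) ≤ 1000 * (u + 1) → 1000 * (u + 1) ≤ X1 → (Y0 : ℝ) ≤ 1000 * v →
    1000 * v ≤ Y1 → u ^ 2 + v ^ 2 ≤ 1 →
    ∃ it ∈ items t X0 X1 Y0 Y1 acc, it.a = it.b ∧ inbox it u v := by
  induction t with
  | o =>
    intro X0 X1 Y0 Y1 acc hc u v h1 h2 h3 h4 h5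
    exfalso
    unfold chk at hc
    have hle := Nat.le_of_ble_eq_true hc
    have g1 : (X0:ℝ) - 1000 ≤ 1000 * u := by linarith
    have g2 : 1000 * u ≤ (X1:ℝ) - 1000 := by linarith
    have hX : (X0:ℝ) ≤ X1 := h1.trans h2
    have hX' : X0 ≤ X1 := by exact_mod_cast hX
    have hm : (((X0 - 1000) + (1000 - X1) : ℕ) : ℝ) ^ 2 ≤ (1000 * u) ^ 2 := by
      rcases le_total X0 1000 with ha | ha
      · rcases le_total 1000 X1 with hb | hb
        · rw [Nat.sub_eq_zero_of_le ha, Nat.sub_eq_zero_of_le hb]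
          push_cast
          nlinarith [sq_nonneg (1000 * u)]
        · rw [Nat.sub_eq_zero_of_le ha, zero_add, Nat.cast_sub hb]
          have : (X1:ℝ) ≤ 1000 := by exact_mod_cast hb
          push_cast
          nlinarith
      · have hb : 1000 ≤ X1 := by omega
        rw [Nat.sub_eq_zero_of_le hb, add_zero, Nat.cast_sub ha]
        have : (1000:ℝ) ≤ X0 := by exact_mod_cast ha
        push_cast
        nlinarith
    have hY : ((Y0:ℕ) : ℝ) ^ 2 ≤ (1000 * v) ^ 2 := pow_le_pow_left₀ (by positivity) h3 2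
    have hleR : (1000001:ℝ) ≤ (((X0 - 1000) + (1000 - X1) : ℕ) : ℝ) ^ 2 + ((Y0:ℕ) : ℝ) ^ 2 := by
      rw [sq, sq]
      exact_mod_cast hle
    nlinarith
  | l w =>
    intro X0 X1 Y0 Y1 acc hc u v h1 h2 h3 h4 h5
    exact ⟨⟨X0, X1, Y0, Y1, w, w⟩, List.mem_cons_self, rfl, h1, h2, h3, h4⟩
  | x c a b iha ihb =>
    intro X0 X1 Y0 Y1 acc hc u v h1 h2 h3 h4 h5
    unfold chk at hc
    rw [Bool.and_eq_true] at hc
    rcases le_total (1000 * (u + 1)) (c:ℝ) with hu | hu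
    · exact iha _ _ _ _ _ hc.1 u v h1 hu h3 h4 h5
    · obtain ⟨it, hit, hh⟩ := ihb c X1 Y0 Y1 acc hc.2 u v hu h2 h3 h4 h5
      exact ⟨it, mem_items_acc a _ _ _ _ _ _ hit, hh⟩
  | y c a b iha ihb =>
    intro X0 X1 Y0 Y1 acc hc u v h1 h2 h3 h4 h5
    unfold chk at hc
    rw [Bool.and_eq_true] at hc
    rcases le_total (1000 * v) (c:ℝ) with hu | hu
    · exact iha _ _ _ _ _ hc.1 u v h1 h2 h3 hu h5
    · obtain ⟨it, hit, hh⟩ := ihb X0 X1 c Y1 acc hc.2 u v h1 h2 hu h4 h5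
      exact ⟨it, mem_items_acc a _ _ _ _ _ _ hit, hh⟩

lemma cover_disc_top (s : ℝ) {p : ℂ} (hp : ‖p‖ ≤ 1) (him : 0 ≤ p.im) :
    ∃ z, ‖z‖ = 1 ∧ ∃ it ∈ lst, RelT s it p z := by
  have hsq : p.re ^ 2 + p.im ^ 2 ≤ 1 := by
    have h1 : ‖p‖ ^ 2 ≤ 1 := pow_le_one₀ (norm_nonneg _) hp
    rw [← Complex.normSq_eq_norm_sq, Complex.normSq_apply] at h1
    linarith [sq p.re, sq p.im]
  have h1 : p.re ≤ 1 := by nlinarith [sq_nonneg p.im]
  have h2 : -1 ≤ p.re := by nlinarith [sq_nonneg p.im]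
  have h3 : p.im ≤ 1 := by nlinarith [sq_nonneg p.re]
  obtain ⟨it, hit, hab, hb⟩ := cover_tree tree 0 2000 0 1000 extras chk_ok p.re p.im
    (by push_cast; linarith) (by push_cast; linarith) (by push_cast; linarith)
    (by push_cast; linarith) hsq
  exact ⟨ec (it.a * (2 * xx s)), norm_ec _, it, hit, hp, hb, it.a * (2 * xx s), le_rfl,
    by rw [hab], rfl⟩

/-- The correspondence covers the disc. -/
theorem cover_disc (s : ℝ) {p : ℂ} (hp : ‖p‖ ≤ 1) : ∃ z, ‖z‖ = 1 ∧ Rl s p z := by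
  rcases le_total 0 p.im with him | him
  · obtain ⟨z, hz, it, hit, hr⟩ := cover_disc_top s hp him
    exact ⟨z, hz, it, hit, Or.inl hr⟩
  · obtain ⟨z, hz, it, hit, hr⟩ := cover_disc_top s (p := conj p)
      (by rwa [Complex.norm_conj]) (by rw [Complex.conj_im]; linarith)
    refine ⟨conj z, by rwa [Complex.norm_conj], it, hit, Or.inr ?_⟩
    rwa [Complex.conj_conj]

lemma norm_le_one_of_sq {u v : ℝ} (h : u ^ 2 + v ^ 2 ≤ 1) : ‖(⟨u, v⟩ : ℂ)‖ ≤ 1 := by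
  have h1 : ‖(⟨u, v⟩ : ℂ)‖ ^ 2 ≤ 1 ^ 2 := by
    rw [← Complex.normSq_eq_norm_sq, Complex.normSq_apply]
    simp only
    nlinarith
  exact (pow_le_pow_iff_left₀ (norm_nonneg _) (by norm_num) two_ne_zero).1 h1

lemma cover_extra (s : ℝ) {X Y a b : ℕ} (hit : (⟨X, X, Y, Y, a, b⟩ : It) ∈ extras)
    (hn : (((X:ℝ) - 1000) / 1000) ^ 2 + ((Y:ℝ) / 1000) ^ 2 ≤ 1) {θ : ℝ}
    (h1 : a * (2 * xx s) ≤ θ) (h2 : θ ≤ b * (2 * xx s)) :
    ∃ p, ‖p‖ ≤ 1 ∧ ∃ it ∈ lst, RelT s it p (ec θ) := by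
  have hp := norm_le_one_of_sq hn
  refine ⟨_, hp, ⟨X, X, Y, Y, a, b⟩, mem_items_acc _ _ _ _ _ _ _ hit, hp, ?_, θ, h1, h2, rfl⟩
  refine ⟨?_, ?_, ?_, ?_⟩ <;> simp only <;> apply le_of_eq <;> field_simp <;> ring

lemma cover_circle_top {s : ℝ} (hs : 0 < s) (h : 4 * s ^ 3 + 4 * s ^ 2 + s = 1) {θ : ℝ}
    (h0 : 0 ≤ θ) (h1 : θ ≤ π) : ∃ p, ‖p‖ ≤ 1 ∧ ∃ it ∈ lst, RelT s it p (ec θ) := by
  have hpi := pi_up hs h
  rcases le_total θ ((256 : ℕ) * (2 * xx s)) with ha | ha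
  · exact cover_extra s (X := 760) (Y := 360) (a := 0) (b := 256) (by simp [extras])
      (by norm_num) (by push_cast; linarith) ha
  rcases le_total θ ((499 : ℕ) * (2 * xx s)) with hb | hb
  · exact cover_extra s (X := 1500) (Y := 840) (a := 256) (b := 499) (by simp [extras])
      (by norm_num) ha hb
  rcases le_total θ ((539 : ℕ) * (2 * xx s)) with hc | hc
  · exact cover_extra s (X := 1620) (Y := 700) (a := 499) (b := 539) (by simp [extras])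
      (by norm_num) hb hc
  · exact cover_extra s (X := 1610) (Y := 652) (a := 539) (b := 566) (by simp [extras])
      (by norm_num) hc (by push_cast; linarith)

/-- The correspondence covers the circle. -/
theorem cover_circle {s : ℝ} (hs : 0 < s) (h : 4 * s ^ 3 + 4 * s ^ 2 + s = 1) {z : ℂ}
    (hz : ‖z‖ = 1) : ∃ p, ‖p‖ ≤ 1 ∧ Rl s p z := by
  have hez : z = ec (Complex.arg z) := by
    have h1 := Complex.norm_mul_exp_arg_mul_I z
    rw [hz, Complex.ofReal_one, one_mul] at h1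
    exact h1.symm
  rcases le_total 0 (Complex.arg z) with ha | ha
  · obtain ⟨p, hp, it, hit, hr⟩ := cover_circle_top hs h ha (Complex.arg_le_pi z)
    rw [← hez] at hr
    exact ⟨p, hp, it, hit, Or.inl hr⟩
  · obtain ⟨p, hp, it, hit, hr⟩ := cover_circle_top hs h (θ := -Complex.arg z) (by linarith)
      (by linarith [Complex.neg_pi_lt_arg z])
    refine ⟨conj p, by rwa [Complex.norm_conj], it, hit, Or.inr ?_⟩
    rw [Complex.conj_conj]
    rw [← conj_ec, ← hez] at hr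
    exact hr

end Pool.Agent.H88.GH
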