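import Mathlib
import Pool.Agent.H88.GH.Rel
import Pool.Agent.H88.GH.Glue

/-!
The Gromov-Hausdorff distance between the unit disc and the unit circle of the plane.
-/

namespace Pool.Agent.H88.GH

open Real Metric GromovHausdorff

/-- The root. -/
lemma exists_root : ∃ s : ℝ, 0 < s ∧ 4 * s ^ 3 + 4 * s ^ 2 + s = 1 := by
  have hcont : ContinuousOn (fun s : ℝ => 4 * s ^ 3 + 4 * s ^ 2 + s) (Set.Icc 0 1) := by fun_prop
  have h := intermediate_value_Icc (show (0:ℝ) ≤ 1 by norm_num) hcont
  have h1 : (1:ℝ) ∈ Set.Icc ((fun s : ℝ => 4 * s ^ 3 + 4 * s ^ 2 + s) 0)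
      ((fun s : ℝ => 4 * s ^ 3 + 4 * s ^ 2 + s) 1) := by
    constructor <;> norm_num
  obtain ⟨s, hs, he⟩ := h h1
  refine ⟨s, ?_, he⟩
  rcases hs.1.eq_or_lt with h0 | h0
  · rw [← h0] at he; norm_num at he
  · exact h0

section

variable {X : Type} [MetricSpace X] [CompactSpace X] [Nonempty X]
variable {Y : Type} [MetricSpace Y] [CompactSpace Y] [Nonempty Y]

/-- Upper bound, for isometric copies of the disc and of the circle. -/
theorem upper {s : ℝ} (hs : 0 < s) (h : 4 * s ^ 3 + 4 * s ^ 2 + s = 1)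
    (i : X → ℂ) (j : Y → ℂ) (hi : Isometry i) (hj : Isometry j)
    (hi1 : Set.range i = closedBall 0 1) (hj1 : Set.range j = sphere 0 1) :
    ghDist X Y ≤ 1 - s := by
  have hu := s_upper h
  refine ghDist_le_of_rel (fun x y => Rl s (i x) (j y)) ?_ ?_ (by linarith) ?_
  · intro x
    have hx : ‖i x‖ ≤ 1 := by
      have : i x ∈ closedBall (0:ℂ) 1 := by rw [← hi1]; exact Set.mem_range_self x
      simpa using this
    obtain ⟨z, hz, hr⟩ := cover_disc s hx
    have : z ∈ Set.range j := by rw [hj1]; simpa using hz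
    obtain ⟨y, rfl⟩ := this
    exact ⟨y, hr⟩
  · intro y
    have hy : ‖j y‖ = 1 := by
      have : j y ∈ sphere (0:ℂ) 1 := by rw [← hj1]; exact Set.mem_range_self y
      simpa using this
    obtain ⟨p, hp, hr⟩ := cover_circle hs h hy
    have : p ∈ Set.range i := by rw [hi1]; simpa using hp
    obtain ⟨x, rfl⟩ := this
    exact ⟨x, hr⟩
  · intro x y x' y' h1 h2
    rw [← hi.dist_eq, ← hj.dist_eq, dist_eq_norm, dist_eq_norm]
    exact dis_le hs h h1 h2

/-- Lower bound, for isometric copies of the disc and of the circle. -/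
theorem lower {s : ℝ} (hs : 0 < s) (h : 4 * s ^ 3 + 4 * s ^ 2 + s = 1)
    (i : X → ℂ) (j : Y → ℂ) (hi : Isometry i) (hj : Isometry j)
    (hi1 : Set.range i = closedBall 0 1) (hj1 : Set.range j = sphere 0 1) :
    1 - s ≤ ghDist X Y := by
  by_contra hlt
  push Not at hlt
  obtain ⟨r, hr1, hr2⟩ := exists_between hlt
  obtain ⟨f, hf⟩ := exists_map_of_ghDist_lt hr1
  have hu := s_upper h
  have hinv : ∀ z : ℂ, ‖z‖ ≤ 1 → ∃ x, i x = z := by
    intro z hz
    have : z ∈ Set.range i := by rw [hi1]; simpa using hz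
    exact this
  classical
  let g : ℂ → ℂ := fun z => if hz : ‖z‖ ≤ 1 then j (f (Classical.choose (hinv z hz))) else 0
  have hg1 : ∀ z, ‖z‖ ≤ 1 → ‖g z‖ = 1 := by
    intro z hz
    have e : g z = j (f (Classical.choose (hinv z hz))) := dif_pos hz
    rw [e]
    have : j (f (Classical.choose (hinv z hz))) ∈ sphere (0:ℂ) 1 := by
      rw [← hj1]; exact Set.mem_range_self _
    simpa using this
  have hg2 : ∀ z w, ‖z‖ ≤ 1 → ‖w‖ ≤ 1 → |‖z - w‖ - ‖g z - g w‖| ≤ 2 * r := by
    intro z w hz hw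
    have e1 : g z = j (f (Classical.choose (hinv z hz))) := dif_pos hz
    have e2 : g w = j (f (Classical.choose (hinv w hw))) := dif_pos hw
    have h1 := Classical.choose_spec (hinv z hz)
    have h2 := Classical.choose_spec (hinv w hw)
    have := hf (Classical.choose (hinv z hz)) (Classical.choose (hinv w hw))
    rw [← hi.dist_eq, ← hj.dist_eq, h1, h2, ← e1, ← e2, dist_eq_norm, dist_eq_norm] at this
    exact this
  -- the constants
  have hα : sin (2 * arcsin s) = 1 - s := by
    have := sin256 hs h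
    rw [show 256 * xx s = 2 * arcsin s by unfold xx; ring] at this
    exact this
  have hα2 : sin (2 * arcsin s / 2) = s := by
    rw [show 2 * arcsin s / 2 = arcsin s by ring]
    exact sin_arcsin (by linarith) (by linarith)
  have hα0 : 0 ≤ 2 * arcsin s := by
    have := arcsin_nonneg.2 hs.le
    positivity
  have hα3 : 3 * (2 * (2 * arcsin s)) ≤ 2 * π := by
    have h1 : arcsin s ≤ π / 6 := by
      rw [arcsin_le_iff_le_sin' ⟨by linarith [pi_pos], by linarith [pi_pos]⟩, sin_pi_div_six]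
      linarith
    linarith
  obtain ⟨δ, hδ0, hδ⟩ : ∃ δ, 0 < δ ∧ 2 * r + δ < 2 * (1 - s) := by
    refine ⟨(1 - s - r), by linarith, by linarith⟩
  have hr0 : 0 ≤ r := by
    have h1 := hg2 0 0 (by simp) (by simp)
    have h2 := (abs_nonneg _).trans h1
    linarith
  refine lower_core (C := 2 * arcsin s) (δ := δ) (c := 2 - δ - 2 * r) hα0 hα3 hδ0 ?_ g hg1 ?_ ?_
  · rw [hα2]; linarith
  · intro z w hz hw hzw
    rw [hα]
    have := (abs_le.1 (hg2 z w hz hw)).1
    linarith
  · intro z w hz hw hzw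
    have := (abs_le.1 (hg2 z w hz.le hw.le)).2
    linarith

end

/-- The inclusion of the Euclidean plane into the complex numbers. -/
noncomputable def toC : EuclideanSpace ℝ (Fin 2) ≃ₗᵢ[ℝ] ℂ := Complex.orthonormalBasisOneI.repr.symm

theorem main {s : ℝ} (hs : 0 < s) (h : 4 * s ^ 3 + 4 * s ^ 2 + s = 1)
    [Nonempty (closedBall (0 : EuclideanSpace ℝ (Fin 2)) 1)]
    [Nonempty (sphere (0 : EuclideanSpace ℝ (Fin 2)) 1)] :
    ghDist (closedBall (0 : EuclideanSpace ℝ (Fin 2)) 1)
      (sphere (0 : EuclideanSpace ℝ (Fin 2)) 1) = 1 - s := by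
  let i : closedBall (0 : EuclideanSpace ℝ (Fin 2)) 1 → ℂ := fun x => toC x.1
  let j : sphere (0 : EuclideanSpace ℝ (Fin 2)) 1 → ℂ := fun x => toC x.1
  have hi : Isometry i := toC.isometry.comp isometry_subtype_coe
  have hj : Isometry j := toC.isometry.comp isometry_subtype_coe
  have hi1 : Set.range i = closedBall 0 1 := by
    ext z
    constructor
    · rintro ⟨x, rfl⟩
      have hx := x.2
      rw [mem_closedBall_zero_iff] at hx ⊢
      show ‖toC x.1‖ ≤ 1
      rw [LinearIsometryEquiv.norm_map]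
      exact hx
    · intro hz
      refine ⟨⟨toC.symm z, ?_⟩, ?_⟩
      · rw [mem_closedBall_zero_iff] at hz ⊢
        rw [LinearIsometryEquiv.norm_map]
        exact hz
      · exact toC.apply_symm_apply z
  have hj1 : Set.range j = sphere 0 1 := by
    ext z
    constructor
    · rintro ⟨x, rfl⟩
      have hx := x.2
      rw [mem_sphere_zero_iff_norm] at hx ⊢
      show ‖toC x.1‖ = 1
      rw [LinearIsometryEquiv.norm_map]
      exact hx
    · intro hz
      refine ⟨⟨toC.symm z, ?_⟩, ?_⟩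
      · rw [mem_sphere_zero_iff_norm] at hz ⊢
        rw [LinearIsometryEquiv.norm_map]
        exact hz
      · exact toC.apply_symm_apply z
  exact le_antisymm (upper hs h i j hi hj hi1 hj1) (lower hs h i j hi hj hi1 hj1)

end Pool.Agent.H88.GH
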